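import Pool.Agent.H91.SchNo

/-! # Words that define only subgroups: the reduction from the word problem

For a finitely presented group with generators `x_1, ..., x_m` and relators `R`, and a word `u`,
the word `B_u` is computed by `wd m R`. In shape it is

  (left modules) * (core) * (right modules),

where the modules are values, in fresh variables `c, d`, of `(c^3 d^3)^2`, `[c^2, d^2]` and
`r(w)(c^3, d^(-2))` for each relator `r` in `R` (`w` a tuple of words in two letters), and the core
is `c d^(-1) E(c^3, d^(-2)) (d^3)^(-1) E(d^3, c^(-2))^(-1) d^3` with `E` in the normal closure of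
`u(w)`.

* `SchEng`, `SchVia`, `SchNorm`: in a set closed under `B_u`, the modules make the relators hold
  in the relevant quotient, so if `u = 1` in the finitely presented group then `E` vanishes there
  and the set is closed under `c d^(-1)`, hence is a subgroup.
* `SchModel`, `SchPar`, `SchFin`, `SchNo`: if `u` is not `1`, there are permutations `x` (order 2)
  and `y` (order 3) of `Fin 36 × S` (`S` countable, carrying the regular action of the finitely
  presented group) such that `{1, x, y, y^(-1)}` is closed under `B_u`. It is not a subgroup.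

Every word set of the frozen statement then equals the whole free group for all groups exactly when
`u = 1` (`sch_iff`). -/

set_option autoImplicit false

namespace Pool.Agent.H91.SchComp

open Pool.Agent.H91.SchWord Pool.Agent.H91.SchRed Pool.Agent.H91.SchNo

section
variable {G : Type} [Group G]

theorem map_val {K : Type} [Group K] {m : ℕ} (R : Finset (FreeGroup (Fin m)))
    (u : FreeGroup (Fin m)) (f : G →* K) (σ : ℕ → G) :
    f (val m R u σ) = val m R u (fun i => f (σ i)) := by
  rw [val, map_mul, map_mul, map_LPv, map_RPv, map_coreW, map_uW, map_uW]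
  simp only [map_pow, map_inv]
  rfl

theorem mk_cons {α : Type} (i : α) (b : Bool) (l : List (α × Bool)) :
    FreeGroup.mk ((i, b) :: l) = (if b then FreeGroup.of i else (FreeGroup.of i)⁻¹) *
      FreeGroup.mk l := by
  have h : (i, b) :: l = [(i, b)] ++ l := rfl
  rw [h, ← FreeGroup.mul_mk]
  congr 1
  cases b
  · simp [FreeGroup.of, FreeGroup.invRev]
  · rfl

theorem mk_flatMap {α β : Type} (g : α × Bool → List (β × Bool)) (s : α → FreeGroup β)
    (h : ∀ i b, FreeGroup.mk (g (i, b)) = if b then s i else (s i)⁻¹) (l : List (α × Bool)) :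
    FreeGroup.mk (l.flatMap g) = FreeGroup.lift s (FreeGroup.mk l) := by
  induction l with
  | nil => simp [← FreeGroup.one_eq_mk]
  | cons p l ih =>
    obtain ⟨i, b⟩ := p
    rw [List.flatMap_cons, ← FreeGroup.mul_mk, ih, mk_cons, map_mul, h]
    cases b <;> simp

end

/-- substitution of words for the letters -/
def sb {m : ℕ} (F : Fin m → List (ℕ × Bool)) (v : List (Fin m × Bool)) : List (ℕ × Bool) :=
  v.flatMap fun p => if p.2 then F p.1 else FreeGroup.invRev (F p.1)

theorem mk_sb {m : ℕ} (F : Fin m → List (ℕ × Bool)) (v : List (Fin m × Bool)) :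
    FreeGroup.mk (sb F v) = FreeGroup.lift (fun i => FreeGroup.mk (F i)) (FreeGroup.mk v) := by
  apply mk_flatMap
  intro i b
  cases b
  · simp [FreeGroup.inv_mk]
  · simp

/-- the words of the parameters -/
noncomputable def F1 (m : ℕ) (i : Fin m) : List (ℕ × Bool) :=
  (wW (i.val + 1) (FreeGroup.of (0 : ℕ) ^ 3) ((FreeGroup.of (1 : ℕ))⁻¹ ^ 2)).toWord

/-- the words of the parameters -/
noncomputable def F2 (m : ℕ) (i : Fin m) : List (ℕ × Bool) :=
  (wW (i.val + 1) (FreeGroup.of (1 : ℕ) ^ 3) ((FreeGroup.of (0 : ℕ))⁻¹ ^ 2)).toWord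

/-- the template -/
noncomputable def T (m : ℕ) (R : Finset (FreeGroup (Fin m))) : FreeGroup ℕ :=
  LPv FreeGroup.of 0 (mods m R) *
    coreW m (FreeGroup.of 0) (FreeGroup.of 1) (FreeGroup.of 2) (FreeGroup.of 3) *
    RPv FreeGroup.of 0 (mods m R)

/-- the substitution for the template -/
noncomputable def gs (m : ℕ) (v : List (Fin m × Bool)) (p : ℕ × Bool) : List (ℕ × Bool) :=
  if p.1 = 2 then (if p.2 then sb (F1 m) v else FreeGroup.invRev (sb (F1 m) v))
  else if p.1 = 3 then (if p.2 then sb (F2 m) v else FreeGroup.invRev (sb (F2 m) v))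
  else [p]

/-- the word -/
noncomputable def wd (m : ℕ) (R : Finset (FreeGroup (Fin m))) (v : List (Fin m × Bool)) :
    List (ℕ × Bool) := (T m R).toWord.flatMap (gs m v)

theorem mk_wd (m : ℕ) (R : Finset (FreeGroup (Fin m))) (v : List (Fin m × Bool)) :
    FreeGroup.mk (wd m R v) = val m R (FreeGroup.mk v) FreeGroup.of := by
  have hF1 : FreeGroup.mk (sb (F1 m) v) =
      uW (FreeGroup.of (0 : ℕ) ^ 3) ((FreeGroup.of (1 : ℕ))⁻¹ ^ 2) (FreeGroup.mk v) := by
    rw [mk_sb, uW]
    simp only [F1, FreeGroup.mk_toWord]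
  have hF2 : FreeGroup.mk (sb (F2 m) v) =
      uW (FreeGroup.of (1 : ℕ) ^ 3) ((FreeGroup.of (0 : ℕ))⁻¹ ^ 2) (FreeGroup.mk v) := by
    rw [mk_sb, uW]
    simp only [F2, FreeGroup.mk_toWord]
  let s : ℕ → FreeGroup ℕ := fun i => if i = 2 then FreeGroup.mk (sb (F1 m) v)
    else if i = 3 then FreeGroup.mk (sb (F2 m) v) else FreeGroup.of i
  have h1 : FreeGroup.mk (wd m R v) = FreeGroup.lift s (T m R) := by
    rw [wd, mk_flatMap _ s, FreeGroup.mk_toWord]
    intro i b
    simp only [gs, s]
    by_cases h2 : i = 2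
    · simp only [h2, if_true]
      cases b <;> simp [FreeGroup.inv_mk]
    · by_cases h3 : i = 3
      · simp only [h3, if_true]
        cases b <;> simp [FreeGroup.inv_mk]
      · simp only [h2, h3, if_false]
        cases b
        · simp [FreeGroup.of, FreeGroup.invRev]
        · rfl
  rw [h1, T, map_mul, map_mul, map_LPv, map_RPv, map_coreW]
  simp only [FreeGroup.lift_apply_of]
  have e1 : LPv (fun i => s i) 0 (mods m R) = LPv FreeGroup.of 0 (mods m R) :=
    LPv_congr _ _ (fun i hi => by simp only [s]; rw [if_neg (by omega), if_neg (by omega)])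
  have e3 : RPv (fun i => s i) 0 (mods m R) = RPv FreeGroup.of 0 (mods m R) :=
    RPv_congr _ _ (fun i hi => by simp only [s]; rw [if_neg (by omega), if_neg (by omega)])
  rw [e1, e3, val]
  have s0 : s 0 = FreeGroup.of 0 := rfl
  have s1 : s 1 = FreeGroup.of 1 := rfl
  have s2 : s 2 = FreeGroup.mk (sb (F1 m) v) := rfl
  have s3 : s 3 = FreeGroup.mk (sb (F2 m) v) := rfl
  rw [s0, s1, s2, s3, hF1, hF2]

theorem primrec_invRev : Primrec (FreeGroup.invRev : List (ℕ × Bool) → List (ℕ × Bool)) := by
  refine Primrec.list_reverse.comp (Primrec.list_map Primrec.id ?_)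
  exact ((Primrec.fst.comp Primrec.snd).pair (Primrec.not.comp (Primrec.snd.comp Primrec.snd))).to₂

theorem primrec_sb {m : ℕ} (F : Fin m → List (ℕ × Bool)) : Primrec (sb F) := by
  refine Primrec.list_flatMap Primrec.id ?_
  exact ((Primrec.dom_finite (fun p : Fin m × Bool => if p.2 then F p.1 else
    FreeGroup.invRev (F p.1))).comp Primrec.snd).to₂

theorem primrec_wd (m : ℕ) (R : Finset (FreeGroup (Fin m))) : Primrec (wd m R) := by
  refine Primrec.list_flatMap (Primrec.const _) ?_
  have hi : PrimrecPred fun q : List (Fin m × Bool) × ℕ × Bool => q.2.1 = 2 :=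
    Primrec.eq.comp (Primrec.fst.comp Primrec.snd) (Primrec.const 2)
  have hj : PrimrecPred fun q : List (Fin m × Bool) × ℕ × Bool => q.2.1 = 3 :=
    Primrec.eq.comp (Primrec.fst.comp Primrec.snd) (Primrec.const 3)
  have hb : PrimrecPred fun q : List (Fin m × Bool) × ℕ × Bool => q.2.2 = true :=
    Primrec.eq.comp (Primrec.snd.comp Primrec.snd) (Primrec.const true)
  have hs := fun F => (primrec_sb (m := m) F).comp
    (Primrec.fst : Primrec (Prod.fst : List (Fin m × Bool) × ℕ × Bool → List (Fin m × Bool)))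
  refine (Primrec.ite hi (Primrec.ite hb (hs (F1 m)) (primrec_invRev.comp (hs (F1 m))))
    (Primrec.ite hj (Primrec.ite hb (hs (F2 m)) (primrec_invRev.comp (hs (F2 m))))
      (Primrec.list_cons.comp Primrec.snd (Primrec.const [])))).to₂.of_eq ?_
  intro v p
  rfl

/-- the predicate -/
def Sch (w : List (ℕ × Bool)) : Prop :=
  ∀ (G : Type) [Group G], ∀ A : FreeGroup ℕ,
      ∀ S : Set (FreeGroup ℕ),
        (∀ i : ℕ, FreeGroup.of i ∈ S) →
        FreeGroup.mk w ∈ S →
        (∀ C ∈ S, ∀ σ : ℕ → FreeGroup ℕ, (∀ i, σ i ∈ S) → FreeGroup.lift σ C ∈ S) →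
        (∀ C ∈ S, ∀ C' : FreeGroup ℕ,
            (∀ f : ℕ → G, FreeGroup.lift f C = FreeGroup.lift f C') → C' ∈ S) →
        A ∈ S

theorem sch_iff (m : ℕ) (R : Finset (FreeGroup (Fin m))) (v : List (Fin m × Bool)) :
    Sch (wd m R v) ↔ FreeGroup.mk v ∈ Subgroup.normalClosure (R : Set (FreeGroup (Fin m))) := by
  constructor
  · intro h
    by_contra hu
    obtain ⟨G, _, x, y, hx, hy, hx1, hy1, hr, hr', he, he'⟩ :=
      SchFin.model (R : Set (FreeGroup (Fin m))) (FreeGroup.mk v) hu
    let S : Set (FreeGroup ℕ) := {A | ∀ σ : ℕ → G, (∀ i, σ i ∈ CC x y) →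
      FreeGroup.lift σ A ∈ CC x y}
    have h1 := h G (FreeGroup.of 0 * (FreeGroup.of 1)⁻¹) S (by
      intro i σ hσ
      rw [FreeGroup.lift_apply_of]
      exact hσ i) (by
      intro σ hσ
      rw [mk_wd, map_val]
      simp only [FreeGroup.lift_apply_of]
      exact no_closed hx hy R hr hr' he he' _ hσ) (by
      intro C hC τ hτ σ hσ
      have h2 := hC (fun i => FreeGroup.lift σ (τ i)) (fun i => hτ i σ hσ)
      have h3 : (FreeGroup.lift σ).comp (FreeGroup.lift τ) =
          FreeGroup.lift (fun i => FreeGroup.lift σ (τ i)) := by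
        apply FreeGroup.ext_hom
        intro i
        simp
      rw [← h3] at h2
      exact h2) (by
      intro C hC C' hCC σ hσ
      rw [← hCC σ]
      exact hC σ hσ)
    have h2 := h1 (fun i => if i = 0 then x else y) (by
      intro i
      split_ifs <;> simp [CC])
    apply no_sub hx hy hx1 hy1
    simpa using h2
  · intro hu G _ A S h1 h2 h3 _
    have h4 := yes R (FreeGroup.mk v) S ⟨_, h1 0⟩ (by
      intro σ hσ
      have h5 := h3 _ h2 σ hσ
      rw [mk_wd, map_val] at h5
      simpa only [FreeGroup.lift_apply_of] using h5) hu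
    have hone : (1 : FreeGroup ℕ) ∈ S := by
      have := h4 _ (h1 0) _ (h1 0)
      rwa [mul_inv_cancel] at this
    have hinv : ∀ c ∈ S, c⁻¹ ∈ S := by
      intro c hc
      have := h4 _ hone _ hc
      rwa [one_mul] at this
    let K : Subgroup (FreeGroup ℕ) :=
      { carrier := S
        one_mem' := hone
        mul_mem' := by
          intro a b ha hb
          have := h4 _ ha _ (hinv _ hb)
          rwa [inv_inv] at this
        inv_mem' := fun {a} ha => hinv a ha }
    have hK : K = ⊤ := by
      rw [eq_top_iff, ← FreeGroup.closure_range_of, Subgroup.closure_le]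
      rintro _ ⟨i, rfl⟩
      exact h1 i
    have : A ∈ K := by rw [hK]; trivial
    exact this

end Pool.Agent.H91.SchComp
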