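import Mathlib

/-! A pair of permutations `x`, `y` of orders two and three of a set `Fin 36 × S`, and a symbolic
engine which computes the action of words in them. -/

set_option autoImplicit false

namespace Pool.Agent.H91.SchEng

/-- letters of words; `Y` is the inverse of `y` -/
inductive L | x | y | Y
  deriving DecidableEq

/-- symbols -/
inductive Sy | O | I | a | b
  deriving DecidableEq

/-- rotation of the triangles -/
def yT (d : Fin 36) : Fin 36 := ⟨3 * (d.val / 3) + (d.val % 3 + 1) % 3, by have := d.2; omega⟩

/-- inverse rotation of the triangles -/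
def YT (d : Fin 36) : Fin 36 := ⟨3 * (d.val / 3) + (d.val % 3 + 2) % 3, by have := d.2; omega⟩

/-- table of the edges -/
def ptL : List ℕ := [0, 27, 24, 3, 14, 16, 6, 32, 34, 9, 13, 17, 22, 10, 4, 20, 5, 11, 18, 26, 15, 21,
  12, 28, 2, 35, 19, 1, 23, 31, 33, 29, 7, 30, 8, 25]

/-- the other end of an edge -/
def pt (d : Fin 36) : Fin 36 := ⟨ptL.getD d.val 0, by revert d; decide⟩

/-- push an involutive symbol -/
def push (c : Sy) : List Sy → List Sy
  | [] => [c]
  | h :: t => if h = c then t else c :: h :: t

/-- symbolic action of `x` -/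
def stx (d : Fin 36) (l : List Sy) : Option (Fin 36 × List Sy) :=
  if d = 6 then
    match l with
    | Sy.O :: t => some (0, t)
    | Sy.I :: t => some (3, t)
    | _ => none
  else if d = 0 then some (6, Sy.O :: l)
  else if d = 3 then some (6, Sy.I :: l)
  else if d = 9 then some (9, push Sy.b l)
  else if d = 18 then some (18, push Sy.a l)
  else if d = 21 then some (21, push Sy.a l)
  else some (pt d, l)

/-- symbolic action of a word, the first letter being applied first -/
def run : List L → Fin 36 × List Sy → Option (Fin 36 × List Sy)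
  | [], p => some p
  | L.x :: w, p => match stx p.1 p.2 with
    | some q => run w q
    | none => none
  | L.y :: w, p => run w (yT p.1, p.2)
  | L.Y :: w, p => run w (YT p.1, p.2)

/-- certificates -/
inductive Tr
  | leaf
  | node (w : List Sy) (l r : Tr)

/-- a list of involutive symbols -/
def isW (w : List Sy) : Bool := w.all fun c => c = Sy.a || c = Sy.b

/-- check that the word fixes the cell -/
def chk (w : List L) (d : Fin 36) : List Sy → Tr → Bool
  | p, Tr.leaf => decide (run w (d, p) = some (d, p))
  | p, Tr.node v l r => isW v && chk w d (p ++ v ++ [Sy.O]) l && chk w d (p ++ v ++ [Sy.I]) r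

section Sem

variable {S : Type} (e : Bool × S ≃ S) (ia ib : Equiv.Perm S)

/-- denotation of a stack -/
def den : List Sy → S → S
  | [], s => s
  | Sy.O :: l, s => e (false, den l s)
  | Sy.I :: l, s => e (true, den l s)
  | Sy.a :: l, s => ia (den l s)
  | Sy.b :: l, s => ib (den l s)

theorem den_append (l m : List Sy) (s : S) : den e ia ib (l ++ m) s = den e ia ib l (den e ia ib m s) := by
  induction l with
  | nil => rfl
  | cons c l ih => cases c <;> simp [den, ih]

/-- the action of `x` -/
def xF (ω : Fin 36 × S) : Fin 36 × S :=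
  if ω.1 = 6 then (if (e.symm ω.2).1 then 3 else 0, (e.symm ω.2).2)
  else if ω.1 = 0 then (6, e (false, ω.2))
  else if ω.1 = 3 then (6, e (true, ω.2))
  else if ω.1 = 9 then (9, ib ω.2)
  else if ω.1 = 18 then (18, ia ω.2)
  else if ω.1 = 21 then (21, ia ω.2)
  else (pt ω.1, ω.2)

variable (ha : ∀ s, ia (ia s) = s) (hb : ∀ s, ib (ib s) = s)

include ha in
theorem den_push_a (l : List Sy) (s : S) : den e ia ib (push Sy.a l) s = ia (den e ia ib l s) := by
  cases l with
  | nil => rfl
  | cons h t =>
    simp only [push]
    split_ifs with h1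
    · subst h1
      simp [den, ha]
    · rfl

include hb in
theorem den_push_b (l : List Sy) (s : S) : den e ia ib (push Sy.b l) s = ib (den e ia ib l s) := by
  cases l with
  | nil => rfl
  | cons h t =>
    simp only [push]
    split_ifs with h1
    · subst h1
      simp [den, hb]
    · rfl

include ha hb in
theorem stx_sound {d d' : Fin 36} {l l' : List Sy} (h : stx d l = some (d', l')) (s : S) :
    xF e ia ib (d, den e ia ib l s) = (d', den e ia ib l' s) := by
  unfold stx at h
  unfold xF
  split_ifs at h with h1 h2 h3 h4 h5 h6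
  · subst h1
    match l, h with
    | Sy.O :: t, h =>
      simp only [Option.some.injEq, Prod.mk.injEq] at h
      obtain ⟨rfl, rfl⟩ := h
      simp [den]
    | Sy.I :: t, h =>
      simp only [Option.some.injEq, Prod.mk.injEq] at h
      obtain ⟨rfl, rfl⟩ := h
      simp [den]
  all_goals
    simp only [Option.some.injEq, Prod.mk.injEq] at h
    obtain ⟨rfl, rfl⟩ := h
    try subst d
    first
    | (simp [den, den_push_a e ia ib ha, den_push_b e ia ib hb]; done)
    | (simp only [h1, h2, h3, h4, h5, h6, if_false])

include ha hb in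
theorem xF_invol (ω : Fin 36 × S) : xF e ia ib (xF e ia ib ω) = ω := by
  obtain ⟨d, s⟩ := ω
  by_cases h6 : d = 6
  · subst h6
    rcases hs : e.symm s with ⟨c, t⟩
    have hs' : e (c, t) = s := by rw [← hs]; simp
    cases c <;> simp [xF, hs, hs']
  · by_cases h0 : d = 0
    · subst h0; simp [xF]
    · by_cases h3 : d = 3
      · subst h3; simp [xF]
      · by_cases h9 : d = 9
        · subst h9; simp [xF, hb]
        · by_cases h18 : d = 18
          · subst h18; simp [xF, ha]
          · by_cases h21 : d = 21
            · subst h21; simp [xF, ha]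
            · have key : ∀ d : Fin 36, d ≠ 6 → d ≠ 0 → d ≠ 3 → d ≠ 9 → d ≠ 18 → d ≠ 21 →
                  pt (pt d) = d ∧ pt d ≠ 6 ∧ pt d ≠ 0 ∧ pt d ≠ 3 ∧ pt d ≠ 9 ∧ pt d ≠ 18 ∧ pt d ≠ 21 := by
                decide
              obtain ⟨k1, k2, k3, k4, k5, k6, k7⟩ := key d h6 h0 h3 h9 h18 h21
              simp [xF, h6, h0, h3, h9, h18, h21, k1, k2, k3, k4, k5, k6, k7]

/-- the involution -/
def X : Equiv.Perm (Fin 36 × S) where
  toFun := xF e ia ib
  invFun := xF e ia ib
  left_inv := xF_invol e ia ib ha hb
  right_inv := xF_invol e ia ib ha hb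

/-- the rotation of the triangles as a permutation -/
def y0 : Equiv.Perm (Fin 36) where
  toFun := yT
  invFun := YT
  left_inv := by decide
  right_inv := by decide

/-- the permutation of order three -/
def Yp : Equiv.Perm (Fin 36 × S) := Equiv.prodCongr y0 (Equiv.refl S)

/-- the permutation of a letter -/
def gen : L → Equiv.Perm (Fin 36 × S)
  | L.x => X e ia ib ha hb
  | L.y => Yp
  | L.Y => Yp⁻¹

/-- the permutation of a word, the first letter being applied first -/
def act : List L → Equiv.Perm (Fin 36 × S)
  | [] => 1
  | l :: w => act w * gen e ia ib ha hb l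

theorem run_sound (w : List L) : ∀ (d : Fin 36) (l : List Sy) (d' : Fin 36) (l' : List Sy),
    run w (d, l) = some (d', l') → ∀ s : S,
    act e ia ib ha hb w (d, den e ia ib l s) = (d', den e ia ib l' s) := by
  induction w with
  | nil =>
    intro d l d' l' h s
    simp only [run, Option.some.injEq, Prod.mk.injEq] at h
    obtain ⟨rfl, rfl⟩ := h
    rfl
  | cons c w ih =>
    intro d l d' l' h s
    rw [act, Equiv.Perm.mul_apply]
    cases c with
    | x =>
      simp only [run] at h
      rcases h1 : stx d l with - | ⟨d1, l1⟩
      · rw [h1] at h; simp at h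
      · rw [h1] at h
        have h2 := stx_sound e ia ib ha hb h1 s
        have h3 : gen e ia ib ha hb L.x (d, den e ia ib l s) = (d1, den e ia ib l1 s) := h2
        rw [h3]
        exact ih _ _ _ _ h s
    | y =>
      simp only [run] at h
      exact ih _ _ _ _ h s
    | Y =>
      simp only [run] at h
      exact ih _ _ _ _ h s

theorem den_surj (v : List Sy) (hv : isW v = true) (s : S) : ∃ z, den e ia ib v z = s := by
  induction v generalizing s with
  | nil => exact ⟨s, rfl⟩
  | cons c v ih =>
    simp only [isW, List.all_cons, Bool.and_eq_true] at hv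
    cases c with
    | O => simp at hv
    | I => simp at hv
    | a =>
      obtain ⟨z, hz⟩ := ih hv.2 (ia.symm s)
      exact ⟨z, by simp [den, hz]⟩
    | b =>
      obtain ⟨z, hz⟩ := ih hv.2 (ib.symm s)
      exact ⟨z, by simp [den, hz]⟩

theorem chk_sound (w : List L) (d : Fin 36) (t : Tr) : ∀ p : List Sy, chk w d p t = true →
    ∀ s : S, act e ia ib ha hb w (d, den e ia ib p s) = (d, den e ia ib p s) := by
  induction t with
  | leaf =>
    intro p h s
    simp only [chk, decide_eq_true_eq] at h
    exact run_sound e ia ib ha hb w _ _ _ _ h s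
  | node v l r ihl ihr =>
    intro p h s
    simp only [chk, Bool.and_eq_true] at h
    obtain ⟨⟨h1, h2⟩, h3⟩ := h
    obtain ⟨z, hz⟩ := den_surj e ia ib v h1 s
    obtain ⟨⟨c, t⟩, hc⟩ := e.surjective z
    cases c with
    | false =>
      have := ihl _ h2 t
      rw [den_append, den_append] at this
      simp only [den] at this
      rw [hc, hz] at this
      exact this
    | true =>
      have := ihr _ h3 t
      rw [den_append, den_append] at this
      simp only [den] at this
      rw [hc, hz] at this
      exact this

end Sem

/-- inverse word -/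
def inv (w : List L) : List L := (w.map fun c => match c with
  | L.x => L.x
  | L.y => L.Y
  | L.Y => L.y).reverse

/-- the word `(x y) ^ 15` -/
def alL : List L := (List.replicate 15 [L.y, L.x]).flatten

def gL : List L := [L.Y, L.x, L.Y, L.x, L.y, L.x, L.y]

def beL : List L := inv gL ++ alL ++ gL

def pL : List L := inv beL ++ inv alL ++ beL ++ alL

/-- certificates for the word `pL` -/
def crt (d : Fin 36) : Tr :=
  if d = 22 then .node [Sy.a] .leaf .leaf
  else if d = 7 then .node [] (.node [] .leaf .leaf) .leaf
  else if d = 2 ∨ d = 6 ∨ d = 8 ∨ d = 26 ∨ d = 27 ∨ d = 30 ∨ d = 32 ∨ d = 33 then .node [] .leaf .leaf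
  else .leaf

set_option maxRecDepth 100000 in
theorem crt_ok : ∀ d : Fin 36, d ≠ 13 → chk pL d [] (crt d) = true := by decide +kernel

end Pool.Agent.H91.SchEng
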