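import Pool.Agent.H91.SchPar

/-! The model. -/

set_option autoImplicit false

namespace Pool.Agent.H91.SchFin

open Pool.Agent.H91.SchEng Pool.Agent.H91.SchWord Pool.Agent.H91.SchVia Pool.Agent.H91.SchModel
  Pool.Agent.H91.SchPar Equiv

section
variable {S : Type}

/-- the action of permutations of the first factor -/
def PC {A : Type} : Perm A →* Perm (A × S) where
  toFun f := Equiv.prodCongr f (Equiv.refl S)
  map_one' := by ext a <;> rfl
  map_mul' f g := by ext a <;> rfl

theorem PC_apply {A : Type} (f : Perm A) (a : A) (s : S) : PC (S := S) f (a, s) = (f a, s) := rfl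

theorem Yp_PC : (Yp : Perm (Fin 36 × S)) = PC y0 := rfl

/-- the mirror image of a dart -/
def thF (d : Fin 36) : Fin 36 :=
  ⟨3 * ([0, 1, 2, 3, 5, 4, 7, 6, 9, 8, 11, 10].getD (d.val / 3) 0) + (3 - d.val % 3) % 3, by
    revert d; decide⟩

/-- the mirror image -/
def th0 : Perm (Fin 36) where
  toFun := thF
  invFun := thF
  left_inv := by decide
  right_inv := by decide

theorem th_y0 : th0 * y0 * th0⁻¹ = y0⁻¹ := by decide

variable (e : Bool × S ≃ S) (ia ib : Perm S) (ha : ∀ s, ia (ia s) = s)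
  (hb : ∀ s, ib (ib s) = s)

theorem th_X : PC th0 * X e ia ib ha hb * (PC th0)⁻¹ = X e ia ib ha hb := by
  rw [mul_inv_eq_iff_eq_mul]
  ext1 ω
  obtain ⟨d, s⟩ := ω
  have hth : ∀ d, th0 d = thF d := fun d => rfl
  show PC th0 (xF e ia ib (d, s)) = xF e ia ib (thF d, s)
  by_cases h6 : d = 6
  · subst h6
    have h1 : thF 6 = 6 := by decide
    rw [h1]
    rcases hs : e.symm s with ⟨c, t⟩
    have h2 : thF 3 = 3 := by decide
    have h3 : thF 0 = 0 := by decide
    cases c <;> simp [xF, hs, PC_apply, hth, h2, h3]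
  · by_cases h0 : d = 0
    · subst h0
      have h1 : thF 6 = 6 := by decide
      have h3 : thF 0 = 0 := by decide
      simp [xF, PC_apply, hth, h1, h3]
    · by_cases h3 : d = 3
      · subst h3
        have h1 : thF 6 = 6 := by decide
        have h3 : thF 3 = 3 := by decide
        simp [xF, PC_apply, hth, h1, h3]
      · by_cases h9 : d = 9
        · subst h9
          have h1 : thF 9 = 9 := by decide
          simp [xF, PC_apply, hth, h1]
        · by_cases h18 : d = 18
          · subst h18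
            have h1 : thF 18 = 21 := by decide
            simp [xF, PC_apply, hth, h1]
          · by_cases h21 : d = 21
            · subst h21
              have h1 : thF 21 = 18 := by decide
              simp [xF, PC_apply, hth, h1]
            · have key : ∀ d : Fin 36, d ≠ 6 → d ≠ 0 → d ≠ 3 → d ≠ 9 → d ≠ 18 → d ≠ 21 →
                  pt (thF d) = thF (pt d) ∧ thF d ≠ 6 ∧ thF d ≠ 0 ∧ thF d ≠ 3 ∧ thF d ≠ 9 ∧
                    thF d ≠ 18 ∧ thF d ≠ 21 := by
                decide
              obtain ⟨k1, k2, k3, k4, k5, k6, k7⟩ := key d h6 h0 h3 h9 h18 h21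
              simp [xF, h6, h0, h3, h9, h18, h21, k1, k2, k3, k4, k5, k6, k7, PC_apply, hth]

/-- exchange of the two halves -/
def flip : Perm S := (e.symm.trans (Equiv.prodCongr Equiv.boolNot (Equiv.refl S))).trans e

theorem flip_apply (b : Bool) (s : S) : flip e (e (b, s)) = e (!b, s) := by
  simp [flip]

/-- the swap in a triangle -/
def swt (t : Fin 12) : Perm (Fin 36) := Equiv.swap ⟨3 * t.val, by omega⟩ ⟨3 * t.val + 1, by omega⟩

theorem swt_prod : ((List.finRange 12).map swt).prod *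
    (y0 * ((List.finRange 12).map swt).prod * y0⁻¹) = y0 := by decide +kernel

section
variable {m : ℕ} {u : Perm (Fin 36 × S)}
  (hpsi : IsVia (fun s : S => ((13 : Fin 36), s)) (flip e) (psiW m (X e ia ib ha hb) Yp u))

include hpsi

theorem conj_swt (t : Fin 12) : hW t (X e ia ib ha hb) Yp * psiW m (X e ia ib ha hb) Yp u *
    (hW t (X e ia ib ha hb) Yp)⁻¹ = PC (swt t) := by
  have h1 : IsVia (fun p : Bool × S => ((13 : Fin 36), e p)) (PC Equiv.boolNot)
      (psiW m (X e ia ib ha hb) Yp u) := by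
    refine ⟨?_, ?_⟩
    · rintro ⟨b, s⟩
      rw [hpsi.1, flip_apply]
      rfl
    · intro ω hω
      apply hpsi.2
      intro s hs
      apply hω (e.symm s)
      simpa using hs
  have h2 : IsVia (fun p : Bool × S => (if p.1 then (⟨3 * t.val + 1, by omega⟩ : Fin 36) else
      ⟨3 * t.val, by omega⟩, p.2)) (PC Equiv.boolNot)
      (hW t (X e ia ib ha hb) Yp * psiW m (X e ia ib ha hb) Yp u *
        (hW t (X e ia ib ha hb) Yp)⁻¹) := by
    apply h1.conj
    rintro ⟨b, s⟩
    cases b
    · rw [hW_ok0]; rfl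
    · rw [hW_ok1]; rfl
  apply h2.uniq
  refine ⟨?_, ?_⟩
  · rintro ⟨b, s⟩
    cases b
    · simp [PC_apply, swt, Equiv.boolNot]
    · simp [PC_apply, swt, Equiv.boolNot]
  · rintro ⟨d, s⟩ hd
    have h3 : d ≠ ⟨3 * t.val, by omega⟩ := by
      rintro rfl
      exact hd (false, s) rfl
    have h4 : d ≠ ⟨3 * t.val + 1, by omega⟩ := by
      rintro rfl
      exact hd (true, s) rfl
    rw [PC_apply, swt, Equiv.swap_apply_of_ne_of_ne h3 h4]

theorem eW_eq : eW m (X e ia ib ha hb) Yp u = Yp := by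
  have h1 : sigW m (X e ia ib ha hb) Yp u = PC ((List.finRange 12).map swt).prod := by
    have h0 : ((List.finRange 12).map fun t => hW t (X e ia ib ha hb) Yp *
        psiW m (X e ia ib ha hb) Yp u * (hW t (X e ia ib ha hb) Yp)⁻¹) =
        (List.finRange 12).map fun t => PC (S := S) (swt t) :=
      List.map_congr_left fun t _ => conj_swt e ia ib ha hb hpsi t
    rw [sigW, h0, map_list_prod, List.map_map]
    simp only [Function.comp_def]
  rw [eW, h1, Yp_PC, ← map_inv, ← map_mul, ← map_mul, ← map_mul, swt_prod]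

end

theorem d0_pow (s : S) : (d0W (X e ia ib ha hb) Yp ^ 5) (13, s) =
    (13, cell e 0 (cell e 0 (cell e 0 (cell e 0 (cell e 0 s))))) := by
  simp only [pow_succ, pow_zero, one_mul, Perm.mul_apply, d0W_ok]
  rfl

end

/-- the model -/
theorem model {m : ℕ} (R : Set (FreeGroup (Fin m))) (u : FreeGroup (Fin m))
    (hu : u ∉ Subgroup.normalClosure R) : ∃ (G : Type) (_ : Group G) (x y : G), x ^ 2 = 1 ∧
    y ^ 3 = 1 ∧ x ≠ 1 ∧ y ≠ 1 ∧ (∀ r ∈ R, uW x y r = 1) ∧ (∀ r ∈ R, uW x y⁻¹ r = 1) ∧
    eW m x y (uW x y u) = y ∧ eW m x y⁻¹ (uW x y⁻¹ u) = y⁻¹ := by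
  classical
  let S := ℕ
  let e : Bool × S ≃ S := Equiv.boolProdNatEquivNat
  let Q := FreeGroup (Fin m) ⧸ Subgroup.normalClosure R
  have hF : Countable (FreeGroup (Fin m)) := FreeGroup.toWord_injective.countable
  have hQ : Countable Q := (QuotientGroup.mk'_surjective (Subgroup.normalClosure R)).countable
  obtain ⟨k0, hk0⟩ := exists_injective_nat Q
  let k : Q → ℕ := fun q => Equiv.swap (k0 1) 0 (k0 q)
  have hk : Function.Injective k := (Equiv.injective _).comp hk0
  have hk1 : k 1 = 0 := Equiv.swap_apply_left _ _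
  let εQ : (Q × S) ↪ S := ⟨fun a => cell e (k a.1) a.2, by
    rintro ⟨q, s⟩ ⟨q', s'⟩ h
    have h1 := @cell_inj S e (k q, s) (k q', s') h
    simp only [Prod.mk.injEq] at h1
    rw [hk h1.1, h1.2]⟩
  let Lq : Q →* Perm Q := MulAction.toPermHom Q Q
  let ρ : FreeGroup (Fin m) →* Perm S :=
    (via εQ).comp ((PC (S := S)).comp (Lq.comp (QuotientGroup.mk' _)))
  let εD : (ℤ × S) ↪ S := ⟨fun a => cell e 0 (εZ e a), by
    intro a b h
    have h1 := @cell_inj S e (0, εZ e a) (0, εZ e b) h
    simp only [Prod.mk.injEq, true_and] at h1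
    exact (εZ e).injective h1⟩
  let ψ : Perm S := flip e
  let τ : Perm S := via εD (shift S)
  let π : Perm S := via εD (half ψ)
  let κ : ℕ → Perm S := fun j => if h : 1 ≤ j ∧ j ≤ m then ρ (FreeGroup.of ⟨j - 1, by omega⟩) else
    if j = m + 1 then τ else π
  obtain ⟨ia, ib, ha, hb, hw⟩ := exists_par e κ
  let x : Perm (Fin 36 × S) := X e ia ib ha hb
  let y : Perm (Fin 36 × S) := Yp
  let ε3 : S ↪ Fin 36 × S := ⟨fun s => ((13 : Fin 36), cell e 0 (cell e 0 (cell e 0 s))), by
    intro s t h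
    simp only [Prod.mk.injEq, true_and] at h
    exact (ε0 e).injective ((ε0 e).injective ((ε0 e).injective h))⟩
  have hV : ∀ j, 1 ≤ j → wW j x y = via ε3 (κ j) := fun j hj =>
    (hw j hj).uniq (via_isVia ε3 (κ j))
  have hU : uW x y = (via ε3).comp ρ := by
    apply FreeGroup.ext_hom
    intro i
    rw [uW, FreeGroup.lift_apply_of, hV _ (by omega)]
    have h1 : κ (i.val + 1) = ρ (FreeGroup.of i) := by
      have hi := i.2
      simp only [κ]
      rw [dif_pos ⟨by omega, by omega⟩]
      rfl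
    rw [h1]
    rfl
  have hrel : ∀ r ∈ R, uW x y r = 1 := by
    intro r hr
    rw [hU]
    have h1 : QuotientGroup.mk' (Subgroup.normalClosure R) r = 1 :=
      (QuotientGroup.eq_one_iff r).mpr (Subgroup.subset_normalClosure hr)
    show via ε3 (via εQ (PC (Lq (QuotientGroup.mk' _ r)))) = 1
    rw [h1, map_one, map_one, map_one, map_one]
  have hκτ : κ (m + 1) = τ := by simp [κ]
  have hκπ : κ (m + 2) = π := by simp [κ]
  -- the value of the commutator
  have hc : IsVia (fun s : S => cell e 0 (cell e 0 s)) ψ (cm (cm π (ρ u)) τ) := by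
    have h1 : IsVia (fun s : S => cell e 0 (cell e 0 s)) ψ (cm π τ) := by
      have h2 : cm π τ = via εD (half ψ * shift S * (half ψ)⁻¹ * (shift S)⁻¹) := by
        simp only [cm, π, τ, map_mul, map_inv]
      rw [h2]
      exact (half_shift ψ).comp (via_isVia εD _)
    have h2 : cm (cm π (ρ u)) τ = cm π τ := by
      have h3 : ρ u * π⁻¹ * (ρ u)⁻¹ * τ = τ * (ρ u * π⁻¹ * (ρ u)⁻¹) := by
        have hπ : IsVia εD (half ψ) π := via_isVia εD _
        have h4 : IsVia (fun a => ρ u (εD a)) (half ψ)⁻¹ (ρ u * π⁻¹ * (ρ u)⁻¹) :=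
          hπ.inv.conj (ρ u) (fun a => rfl)
        apply h4.commute (via_isVia εD (shift S))
        intro a a' h5
        have h6 : ∀ b : ℤ × S, εD b = εQ (1, εZ e b) := by
          intro b
          show cell e 0 (εZ e b) = cell e (k 1) (εZ e b)
          rw [hk1]
        have h7 : ρ u (εD a) = εQ (QuotientGroup.mk' (Subgroup.normalClosure R) u, εZ e a) := by
          rw [h6]
          have h8 := (via_isVia εQ (PC (Lq (QuotientGroup.mk' _ u)))).1 (1, εZ e a)
          have h9 : PC (S := S) (Lq (QuotientGroup.mk' _ u)) (1, εZ e a) =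
              (QuotientGroup.mk' (Subgroup.normalClosure R) u, εZ e a) := by
            rw [PC_apply]
            simp [Lq]
          rw [h9] at h8
          exact h8
        rw [h7, h6] at h5
        have h10 := εQ.injective h5
        simp only [Prod.mk.injEq] at h10
        exact hu ((QuotientGroup.eq_one_iff u).mp h10.1)
      have h4 : cm (cm π (ρ u)) τ = π * (ρ u * π⁻¹ * (ρ u)⁻¹ * τ) * (ρ u * π⁻¹ * (ρ u)⁻¹)⁻¹ *
          π⁻¹ * τ⁻¹ := by
        simp only [cm]; group
      rw [h4, h3]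
      simp only [cm]; group
    rw [h2]
    exact h1
  have hpsi : IsVia (fun s : S => ((13 : Fin 36), s)) (flip e) (psiW m x y (uW x y u)) := by
    have h1 : cm (cm (wW (m + 2) x y) (uW x y u)) (wW (m + 1) x y) =
        via ε3 (cm (cm π (ρ u)) τ) := by
      rw [hV _ (by omega), hV _ (by omega), hU, hκτ, hκπ, map_cm, map_cm]
      rfl
    have h2 := hc.comp (via_isVia ε3 (cm (cm π (ρ u)) τ))
    rw [← h1] at h2
    have h3 := h2.conj (ε' := fun s : S => ((13 : Fin 36), s)) ((d0W x y ^ 5)⁻¹) (by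
      intro s
      rw [Perm.inv_eq_iff_eq]
      exact (d0_pow e ia ib ha hb s).symm)
    rw [inv_inv] at h3
    exact h3
  have heW : eW m x y (uW x y u) = y := eW_eq e ia ib ha hb hpsi
  let Θ : Perm (Fin 36 × S) := PC th0
  have hΘx : (MulAut.conj Θ).toMonoidHom x = x := th_X e ia ib ha hb
  have hΘy : (MulAut.conj Θ).toMonoidHom y = y⁻¹ := by
    show Θ * y * Θ⁻¹ = y⁻¹
    have : (PC (S := S)) (th0 * y0 * th0⁻¹) = PC (y0⁻¹) := by rw [th_y0]
    rw [map_mul, map_mul, map_inv, map_inv] at this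
    exact this
  refine ⟨Perm (Fin 36 × S), inferInstance, x, y, ?_, Yp_cube, ?_, ?_, hrel, ?_, heW, ?_⟩
  · rw [pow_two]; exact X_sq e ia ib ha hb
  · intro h
    have h1 := congrArg (fun f : Perm (Fin 36 × S) => (f (1, 0)).1) h
    have h2 : (x (1, 0)).1 = 27 := by
      show (xF e ia ib (1, 0)).1 = 27
      simp [xF]
      decide
    simp only [h2] at h1
    exact absurd h1 (by decide)
  · intro h
    have h1 := congrArg (fun f : Perm (Fin 36 × S) => (f (1, 0)).1) h
    have h2 : (y (1, 0)).1 = 2 := rfl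
    simp only [h2] at h1
    exact absurd h1 (by decide)
  · intro r hr
    have h1 := congrArg (MulAut.conj Θ).toMonoidHom (hrel r hr)
    rw [map_uW, hΘx, hΘy, map_one] at h1
    exact h1
  · have h1 := congrArg (MulAut.conj Θ).toMonoidHom heW
    rw [map_eW, map_uW, hΘx, hΘy] at h1
    exact h1

end Pool.Agent.H91.SchFin
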