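import Mathlib

/-! Permutations supported on the range of an embedding. -/

set_option autoImplicit false

namespace Pool.Agent.H91.SchVia

open Equiv

/-- `g` acts on the range of `ε` as `k`, and trivially elsewhere -/
def IsVia {A B : Type} (ε : A → B) (k : Perm A) (g : Perm B) : Prop :=
  (∀ a, g (ε a) = ε (k a)) ∧ ∀ b, (∀ a, ε a ≠ b) → g b = b

section
variable {A B C : Type} {ε : A → B} {k k' : Perm A} {g g' : Perm B}

theorem IsVia.uniq (h : IsVia ε k g) (h' : IsVia ε k g') : g = g' := by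
  ext b
  by_cases hb : ∃ a, ε a = b
  · obtain ⟨a, rfl⟩ := hb
    rw [h.1, h'.1]
  · push Not at hb
    rw [h.2 b hb, h'.2 b hb]

theorem IsVia.mul (h : IsVia ε k g) (h' : IsVia ε k' g') : IsVia ε (k * k') (g * g') := by
  refine ⟨fun a => ?_, fun b hb => ?_⟩
  · rw [Perm.mul_apply, h'.1, h.1, Perm.mul_apply]
  · rw [Perm.mul_apply, h'.2 b hb, h.2 b hb]

theorem IsVia.one : IsVia ε 1 1 := ⟨fun _ => rfl, fun _ _ => rfl⟩

theorem IsVia.inv (h : IsVia ε k g) : IsVia ε k⁻¹ g⁻¹ := by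
  refine ⟨fun a => ?_, fun b hb => ?_⟩
  · rw [Perm.inv_eq_iff_eq, h.1]
    simp
  · rw [Perm.inv_eq_iff_eq, h.2 b hb]

/-- conjugation -/
theorem IsVia.conj (h : IsVia ε k g) {ε' : A → B} (c : Perm B)
    (hc : ∀ a, c (ε a) = ε' a) : IsVia ε' k (c * g * c⁻¹) := by
  have hc' : ∀ a, c⁻¹ (ε' a) = ε a := fun a => by rw [Perm.inv_eq_iff_eq, hc]
  refine ⟨fun a => ?_, fun b hb => ?_⟩
  · simp only [Perm.mul_apply]
    rw [hc', h.1, hc]
  · simp only [Perm.mul_apply]
    rw [h.2]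
    · simp
    · intro a ha
      apply hb a
      rw [← hc, ha]
      simp

/-- commutator with a permutation which preserves the range -/
theorem IsVia.comm (h : IsVia ε k g) (u : Perm B) (hu : ∀ a, u (ε a) = ε (k' a)) :
    IsVia ε (k' * k * k'⁻¹ * k⁻¹) (u * g * u⁻¹ * g⁻¹) := by
  have hu' : ∀ a, u⁻¹ (ε a) = ε (k'⁻¹ a) := fun a => by
    rw [Perm.inv_eq_iff_eq, hu]
    simp
  have hg := h.inv
  refine ⟨fun a => ?_, fun b hb => ?_⟩
  · simp only [Perm.mul_apply]
    rw [hg.1, hu', h.1, hu]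
  · simp only [Perm.mul_apply]
    rw [hg.2 b hb, h.2]
    · simp
    · intro a ha
      apply hb (k' a)
      rw [← hu, ha]
      simp

theorem IsVia.comm' (h : IsVia ε k g) (u : Perm B) (hu : ∀ a, u (ε a) = ε (k' a)) :
    IsVia ε (k * k' * k⁻¹ * k'⁻¹) (g * u * g⁻¹ * u⁻¹) := by
  have h1 := (h.comm u hu).inv
  have e1 : (k' * k * k'⁻¹ * k⁻¹)⁻¹ = k * k' * k⁻¹ * k'⁻¹ := by group
  have e2 : (u * g * u⁻¹ * g⁻¹)⁻¹ = g * u * g⁻¹ * u⁻¹ := by group
  rwa [e1, e2] at h1

theorem IsVia.comp {ζ : B → C} {f : Perm C} (h : IsVia ε k g)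
    (h' : IsVia ζ g f) : IsVia (fun a => ζ (ε a)) k f := by
  refine ⟨fun a => ?_, fun c hc => ?_⟩
  · rw [h'.1, h.1]
  · by_cases hb : ∃ b, ζ b = c
    · obtain ⟨b, rfl⟩ := hb
      rw [h'.1, h.2]
      intro a ha
      exact hc a (by simp only [ha])
    · push Not at hb
      exact h'.2 c hb

theorem IsVia.congr {ε' : A → B} (h : IsVia ε k g) (he : ∀ a, ε a = ε' a) : IsVia ε' k g := by
  have : ε = ε' := funext he
  rwa [← this]

/-- two permutations with disjoint ranges commute -/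
theorem IsVia.commute {A' : Type} {ε' : A' → B} {l : Perm A'} {f : Perm B} (h : IsVia ε k g)
    (h' : IsVia ε' l f) (hd : ∀ a a', ε a ≠ ε' a') : g * f = f * g := by
  ext b
  simp only [Perm.mul_apply]
  by_cases hb : ∃ a, ε a = b
  · obtain ⟨a, rfl⟩ := hb
    rw [h'.2 (ε a) (fun a' => (hd a a').symm), h.1, h'.2 _ (fun a' => (hd _ a').symm)]
  · by_cases hb' : ∃ a, ε' a = b
    · obtain ⟨a, rfl⟩ := hb'
      rw [h'.1, h.2 _ (fun a' => hd a' _), h.2 _ (fun a' => hd a' _), h'.1]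
    · push Not at hb hb'
      rw [h'.2 b hb', h.2 b hb, h'.2 b hb']

end

/-- the extension of permutations along an embedding -/
noncomputable def via {A B : Type} (ε : A ↪ B) : Perm A →* Perm B := Perm.viaEmbeddingHom ε

theorem via_isVia {A B : Type} (ε : A ↪ B) (k : Perm A) : IsVia ε k (via ε k) := by
  refine ⟨fun a => ?_, fun b hb => ?_⟩
  · exact Perm.viaEmbedding_apply k ε a
  · exact Perm.viaEmbedding_apply_of_notMem k ε b (fun ⟨a, ha⟩ => hb a ha)

/-- half of a permutation and the shift -/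
def shift (S : Type) : Perm (ℤ × S) where
  toFun p := (p.1 + 1, p.2)
  invFun p := (p.1 - 1, p.2)
  left_inv p := by simp
  right_inv p := by simp

/-- the permutation `k` on the nonnegative levels -/
def half {S : Type} (k : Perm S) : Perm (ℤ × S) where
  toFun p := (p.1, if 0 ≤ p.1 then k p.2 else p.2)
  invFun p := (p.1, if 0 ≤ p.1 then k.symm p.2 else p.2)
  left_inv p := by
    ext
    · rfl
    · simp only
      split_ifs <;> simp
  right_inv p := by
    ext
    · rfl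
    · simp only
      split_ifs <;> simp

theorem half_shift {S : Type} (k : Perm S) :
    IsVia (fun s : S => ((0 : ℤ), s)) k (half k * shift S * (half k)⁻¹ * (shift S)⁻¹) := by
  have h1 : ∀ p : ℤ × S, (shift S)⁻¹ p = (p.1 - 1, p.2) := fun p => rfl
  have h2 : ∀ p : ℤ × S, (half k)⁻¹ p = (p.1, if 0 ≤ p.1 then k.symm p.2 else p.2) := fun p => rfl
  have h3 : ∀ p : ℤ × S, shift S p = (p.1 + 1, p.2) := fun p => rfl
  have h4 : ∀ p : ℤ × S, half k p = (p.1, if 0 ≤ p.1 then k p.2 else p.2) := fun p => rfl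
  refine ⟨fun s => ?_, ?_⟩
  · simp only [Perm.mul_apply, h1, h2, h3, h4]
    simp
  · rintro ⟨n, s⟩ hb
    have hn : n ≠ 0 := by
      rintro rfl
      exact hb s rfl
    simp only [Perm.mul_apply, h1, h2, h3, h4]
    rcases lt_or_gt_of_ne hn with h | h
    · have h5 : ¬ (0 ≤ n - 1) := by omega
      have h6 : ¬ (0 ≤ n - 1 + 1) := by omega
      simp only [h5, h6, if_false]
      simp
    · have h5 : 0 ≤ n - 1 := by omega
      have h6 : 0 ≤ n - 1 + 1 := by omega
      simp only [h5, h6, if_true]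
      simp

end Pool.Agent.H91.SchVia
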