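import Pool.Agent.H91.SchWord
import Pool.Agent.H91.SchVia

/-! The values of the words on the pair of permutations. -/

set_option autoImplicit false

namespace Pool.Agent.H91.SchModel

open Pool.Agent.H91.SchEng Pool.Agent.H91.SchWord Pool.Agent.H91.SchVia Equiv

variable {S : Type} (e : Bool × S ≃ S) (ia ib : Perm S) (ha : ∀ s, ia (ia s) = s)
  (hb : ∀ s, ib (ib s) = s)

theorem X_sq : X e ia ib ha hb * X e ia ib ha hb = 1 := by
  ext1 ω
  exact xF_invol e ia ib ha hb ω

theorem X_inv : (X e ia ib ha hb)⁻¹ = X e ia ib ha hb := by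
  rw [inv_eq_iff_mul_eq_one]
  exact X_sq e ia ib ha hb

theorem y0_cube : y0 ^ 3 = 1 := by decide

theorem Yp_cube : (Yp : Perm (Fin 36 × S)) ^ 3 = 1 := by
  ext1 ω
  have h := congrArg (fun f : Perm (Fin 36) => f ω.1) y0_cube
  have h2 : ((Yp : Perm (Fin 36 × S)) ^ 3) ω = ((y0 ^ 3) ω.1, ω.2) := rfl
  rw [h2]
  exact Prod.ext h rfl

theorem ev_act (w : List L) : ev w (X e ia ib ha hb) Yp = act e ia ib ha hb w := by
  induction w with
  | nil => rfl
  | cons c w ih => cases c <;> simp [ev, act, gen, ih]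

theorem act_append (u v : List L) : act e ia ib ha hb (u ++ v) =
    act e ia ib ha hb v * act e ia ib ha hb u := by
  induction u with
  | nil => simp [act]
  | cons c u ih => simp [act, ih, mul_assoc]

theorem act_inv (w : List L) : act e ia ib ha hb (inv w) = (act e ia ib ha hb w)⁻¹ := by
  induction w with
  | nil => simp [act, inv]
  | cons c w ih =>
    have h1 : inv (c :: w) = inv w ++ inv [c] := by simp [inv]
    rw [h1, act_append, ih]
    have h2 : act e ia ib ha hb (inv [c]) = (gen e ia ib ha hb c)⁻¹ := by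
      cases c
      · simp [act, inv, gen, X_inv]
      · simp [act, inv, gen]
      · simp [act, inv, gen]
    rw [h2]
    simp [act]

theorem pW_act : pW (X e ia ib ha hb) Yp = act e ia ib ha hb pL := by
  simp only [pW, aW, gW, ev_act, pL, beL, act_append, act_inv, cm]
  group

theorem pW_via : IsVia (fun s : S => ((13 : Fin 36), s)) ((ib * ia) ^ 4) (pW (X e ia ib ha hb) Yp) := by
  rw [pW_act]
  refine ⟨fun s => ?_, ?_⟩
  · have := run_sound e ia ib ha hb pL _ _ _ _ p_ok s
    simpa [den, pow_succ] using this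
  · rintro ⟨d, s⟩ h
    have hd : d ≠ 13 := by
      rintro rfl
      exact h s rfl
    have h1 := chk_sound e ia ib ha hb pL d (crt d) [] (crt_ok d hd) s
    simp only [den] at h1
    exact h1

theorem d0W_ok (s : S) : d0W (X e ia ib ha hb) Yp (13, s) = (13, e (false, s)) := by
  rw [d0W, ev_act]
  exact run_sound e ia ib ha hb _ _ _ _ _ d0_ok s

theorem d1W_ok (s : S) : d1W (X e ia ib ha hb) Yp (13, s) = (13, e (true, s)) := by
  rw [d1W, ev_act]
  exact run_sound e ia ib ha hb _ _ _ _ _ d1_ok s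

theorem hW_ok0 (t : Fin 12) (s : S) : hW t (X e ia ib ha hb) Yp (13, e (false, s)) =
    (⟨3 * t.val, by omega⟩, s) := by
  rw [hW, ev_act]
  exact run_sound e ia ib ha hb _ _ _ _ _ (h0_ok t) s

theorem hW_ok1 (t : Fin 12) (s : S) : hW t (X e ia ib ha hb) Yp (13, e (true, s)) =
    (⟨3 * t.val + 1, by omega⟩, s) := by
  rw [hW, ev_act]
  exact run_sound e ia ib ha hb _ _ _ _ _ (h1_ok t) s

/-- the cells `1 ^ i 0` -/
def cell : ℕ → S → S
  | 0, s => e (false, s)
  | i + 1, s => e (true, cell i s)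

theorem cell_inj : Function.Injective (fun p : ℕ × S => cell e p.1 p.2) := by
  rintro ⟨i, s⟩ ⟨j, t⟩ h
  simp only at h
  induction i generalizing j with
  | zero =>
    cases j with
    | zero =>
      have := e.injective h
      simp_all
    | succ j =>
      have := e.injective h
      simp at this
  | succ i ih =>
    cases j with
    | zero =>
      have := e.injective h
      simp at this
    | succ j =>
      have h1 := e.injective h
      simp only [Prod.mk.injEq, true_and] at h1
      have := ih _ h1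
      simp_all

theorem d1_pow (i : ℕ) (s : S) : (d1W (X e ia ib ha hb) Yp ^ i) (13, cell e 0 s) =
    (13, cell e i s) := by
  induction i with
  | zero => rfl
  | succ i ih =>
    rw [pow_succ', Perm.mul_apply, ih, d1W_ok]
    rfl

section
variable {p : ℕ → Perm S} (hp : ∀ i s, ((ib * ia) ^ 4) (cell e (8 * i) s) = cell e (8 * i) (p i s))

include hp

theorem wW_via (j : ℕ) : IsVia (fun s : S => ((13 : Fin 36), cell e 0 s))
    (p j * (ib * ia) ^ 4 * (p j)⁻¹ * ((ib * ia) ^ 4)⁻¹) (wW j (X e ia ib ha hb) Yp) := by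
  have h1 : IsVia (fun s : S => ((13 : Fin 36), cell e 0 s)) ((ib * ia) ^ 4)
      (d0W (X e ia ib ha hb) Yp * pW (X e ia ib ha hb) Yp * (d0W (X e ia ib ha hb) Yp)⁻¹) :=
    (pW_via e ia ib ha hb).conj _ (fun s => d0W_ok e ia ib ha hb s)
  have h2 : ∀ s : S, ((d1W (X e ia ib ha hb) Yp ^ (8 * j))⁻¹ * pW (X e ia ib ha hb) Yp *
      d1W (X e ia ib ha hb) Yp ^ (8 * j)) (13, cell e 0 s) = (13, cell e 0 (p j s)) := by
    intro s
    rw [Perm.mul_apply, Perm.mul_apply, d1_pow, (pW_via e ia ib ha hb).1, hp, Perm.inv_eq_iff_eq,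
      d1_pow]
  have h3 := h1.comm _ h2
  rw [wW, cm]
  exact h3

end

end Pool.Agent.H91.SchModel
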