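import Pool.Agent.H91.SchRed

/-! The negative case, and the words as lists. -/

set_option autoImplicit false

namespace Pool.Agent.H91.SchNo

open Pool.Agent.H91.SchWord Pool.Agent.H91.SchRed

section
variable {G : Type} [Group G]

/-- the closed set -/
def CC (x y : G) : Set G := {1, x, y, y⁻¹}

variable {x y : G} (hx : x ^ 2 = 1) (hy : y ^ 3 = 1)

include hx in
theorem x3 : x ^ 3 = x := by rw [pow_succ, hx, one_mul]

include hx in
theorem xi : x⁻¹ = x := by
  rw [inv_eq_iff_mul_eq_one, ← pow_two, hx]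

include hy in
theorem yi2 : y⁻¹ ^ 2 = y := by
  have h : y⁻¹ ^ 2 * y ^ 3 = y := by group
  rwa [hy, mul_one] at h

include hy in
theorem y2 : y ^ 2 = y⁻¹ := by
  have h : y ^ 3 * y⁻¹ = y ^ 2 := by group
  rw [← h, hy, one_mul]

include hx hy

theorem cube_cases {c : G} (hc : c ∈ CC x y) : c ^ 3 = 1 ∨ c ^ 3 = x := by
  rcases hc with rfl | rfl | rfl | hc
  · left; exact one_pow 3
  · right; exact x3 hx
  · left; exact hy
  · left
    rw [Set.mem_singleton_iff] at hc
    rw [hc, inv_pow, hy, inv_one]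

theorem sq_cases {c : G} (hc : c ∈ CC x y) : c⁻¹ ^ 2 = 1 ∨ c⁻¹ ^ 2 = y ∨ c⁻¹ ^ 2 = y⁻¹ := by
  rcases hc with rfl | rfl | rfl | hc
  · left; simp
  · left; rw [inv_pow, hx, inv_one]
  · right; left; exact yi2 hy
  · rw [Set.mem_singleton_iff] at hc
    right; right
    rw [hc, inv_inv, y2 hy]

variable {m : ℕ} (R : Finset (FreeGroup (Fin m))) (hr : ∀ r ∈ R, uW x y r = 1)
  (hr' : ∀ r ∈ R, uW x y⁻¹ r = 1)

include hr hr' in
theorem mod_one {c d : G} (hc : c ∈ CC x y) (hd : d ∈ CC x y) : ∀ μ ∈ mods m R, e2 c d μ = 1 := by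
  intro μ hμ
  simp only [mods, List.mem_cons, List.mem_map, Finset.mem_toList] at hμ
  rcases hμ with rfl | rfl | ⟨r, hrR, rfl⟩
  · simp only [map_pow, map_mul, e2_0, e2_1]
    rcases cube_cases hx hy hc with h1 | h1 <;> rcases cube_cases hx hy hd with h2 | h2 <;>
      rw [h1, h2]
    · simp
    · rw [one_mul]; exact hx
    · rw [mul_one]; exact hx
    · rw [← pow_two, hx, one_pow]
  · simp only [map_cm, map_pow, e2_0, e2_1]
    have key : Commute (c ^ 2) (d ^ 2) := by
      have h3 : ∀ z : G, z ∈ CC x y → z ^ 2 = 1 ∨ z ^ 2 = y ∨ z ^ 2 = y⁻¹ := by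
        intro z hz
        rcases hz with rfl | rfl | rfl | hz
        · left; simp
        · left; exact hx
        · right; right; exact y2 hy
        · rw [Set.mem_singleton_iff] at hz
          right; left
          rw [hz]; exact yi2 hy
      rcases h3 c hc with h1 | h1 | h1 <;> rcases h3 d hd with h2 | h2 | h2 <;> rw [h1, h2]
      · exact Commute.one_left _
      · exact Commute.one_left _
      · exact Commute.one_right _
      · exact (Commute.refl y).inv_right
      · exact Commute.one_right _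
      · exact (Commute.refl y).inv_left
    rw [cm, key.eq]
    group
  · rw [map_uW, map_pow, map_pow, map_inv, e2_0, e2_1]
    rcases cube_cases hx hy hc with h1 | h1
    · rw [h1]; exact uW_comm (Commute.one_left _) r
    · rw [h1]
      rcases sq_cases hx hy hd with h2 | h2 | h2 <;> rw [h2]
      · exact uW_comm (Commute.one_right _) r
      · exact hr r hrR
      · exact hr' r hrR

omit hx hy in
theorem LPv_mod (C : Set G) (ms : List (FreeGroup (Fin 2)))
    (h : ∀ c ∈ C, ∀ d ∈ C, ∀ μ ∈ ms, e2 c d μ = 1) (σ : ℕ → G) (hσ : ∀ i, σ i ∈ C) :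
    ∀ k, LPv σ k ms = 1 := by
  induction ms with
  | nil => intro k; rfl
  | cons μ ms ih =>
    intro k
    rw [LPv, ih (fun c hc d hd ν hν => h c hc d hd ν (List.mem_cons_of_mem _ hν)),
      h _ (hσ _) _ (hσ _) μ List.mem_cons_self, mul_one]

omit hx hy in
theorem RPv_mod (C : Set G) (hC : ∀ c ∈ C, c⁻¹ ∈ C) (ms : List (FreeGroup (Fin 2)))
    (h : ∀ c ∈ C, ∀ d ∈ C, ∀ μ ∈ ms, e2 c d μ = 1) (σ : ℕ → G) (hσ : ∀ i, σ i ∈ C) :
    ∀ k, RPv σ k ms = 1 := by
  induction ms with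
  | nil => intro k; rfl
  | cons μ ms ih =>
    intro k
    rw [RPv, ih (fun c hc d hd ν hν => h c hc d hd ν (List.mem_cons_of_mem _ hν)),
      h _ (hC _ (hσ _)) _ (hC _ (hσ _)) μ List.mem_cons_self, mul_one]

omit hy in
theorem CC_inv : ∀ c ∈ CC x y, c⁻¹ ∈ CC x y := by
  rintro c (rfl | rfl | rfl | hc)
  · simp [CC]
  · rw [xi hx]; simp [CC]
  · simp [CC]
  · rw [Set.mem_singleton_iff] at hc
    rw [hc]; simp [CC]

variable {u : FreeGroup (Fin m)} (he : eW m x y (uW x y u) = y)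
  (he' : eW m x y⁻¹ (uW x y⁻¹ u) = y⁻¹)

include he he' in
theorem core_mem {c d : G} (hc : c ∈ CC x y) (hd : d ∈ CC x y) :
    coreW m c d (uW (c ^ 3) (d⁻¹ ^ 2) u) (uW (d ^ 3) (c⁻¹ ^ 2) u) ∈ CC x y := by
  have hyi : (y⁻¹) ^ 3 = 1 := by rw [inv_pow, hy, inv_one]
  have hyi2 : (y⁻¹)⁻¹ ^ 2 = y⁻¹ := by rw [inv_inv, y2 hy]
  have hxx : x * x = 1 := by rw [← pow_two, hx]
  have hxi := xi hx
  have hx3 := x3 hx
  have hy2 := yi2 hy
  have m1 : (1 : G) ∈ CC x y := by simp [CC]
  have mx : x ∈ CC x y := by simp [CC]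
  have my : y ∈ CC x y := by simp [CC]
  have myi : y⁻¹ ∈ CC x y := by simp [CC]
  rcases hc with h1 | h1 | h1 | h1
  · rw [h1, coreW_comm (Commute.one_left d), one_mul]
    exact CC_inv hx d hd
  · rw [h1]
    rcases hd with h2 | h2 | h2 | h2
    · rw [h2, coreW_comm (Commute.one_right _), inv_one, mul_one]; exact mx
    · rw [h2, coreW_comm (Commute.refl _), mul_inv_cancel]; exact m1
    · rw [h2, coreW, hx3, hy2, hy, he, eW_comm (Commute.one_left _), inv_mul_cancel_right]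
      simpa using mx
    · rw [Set.mem_singleton_iff] at h2
      rw [h2, coreW, hx3, hyi2, hyi, he', eW_comm (Commute.one_left _), inv_mul_cancel_right]
      simpa using mx
  · rw [h1]
    rcases hd with h2 | h2 | h2 | h2
    · rw [h2, coreW_comm (Commute.one_right _), inv_one, mul_one]; exact my
    · rw [h2, coreW, hx3, hy2, hy, he, eW_comm (Commute.one_left _), mul_one]
      have h : y * x⁻¹ * (x⁻¹ * y⁻¹ * x) = x := by
        have h3 : y * x⁻¹ * (x⁻¹ * y⁻¹ * x) = y * (x * x)⁻¹ * y⁻¹ * x := by group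
        rw [h3, hxx]; group
      rw [h]; exact mx
    · rw [h2, coreW_comm (Commute.refl _), mul_inv_cancel]; exact m1
    · rw [Set.mem_singleton_iff] at h2
      rw [h2, coreW_comm (Commute.refl _).inv_right, inv_inv, ← pow_two, y2 hy]; exact myi
  · rw [Set.mem_singleton_iff] at h1
    rw [h1]
    rcases hd with h2 | h2 | h2 | h2
    · rw [h2, coreW_comm (Commute.one_right _), inv_one, mul_one]; exact myi
    · rw [h2, coreW, hx3, hyi2, hyi, he', eW_comm (Commute.one_left _), mul_one]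
      have h : y⁻¹ * x⁻¹ * (x⁻¹ * (y⁻¹)⁻¹ * x) = x := by
        have h3 : y⁻¹ * x⁻¹ * (x⁻¹ * (y⁻¹)⁻¹ * x) = y⁻¹ * (x * x)⁻¹ * y * x := by group
        rw [h3, hxx]; group
      rw [h]; exact mx
    · rw [h2, coreW_comm (Commute.refl _).inv_left, ← pow_two, hy2]; exact my
    · rw [Set.mem_singleton_iff] at h2
      rw [h2, coreW_comm (Commute.refl _), mul_inv_cancel]; exact m1

include hr hr' he he' in
theorem no_closed (σ : ℕ → G) (hσ : ∀ i, σ i ∈ CC x y) : val m R u σ ∈ CC x y := by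
  have h : ∀ c ∈ CC x y, ∀ d ∈ CC x y, ∀ μ ∈ mods m R, e2 c d μ = 1 := fun c hc d hd =>
    mod_one hx hy R hr hr' hc hd
  rw [val, LPv_mod (CC x y) _ h σ hσ, RPv_mod (CC x y) (CC_inv hx) _ h σ hσ, one_mul, mul_one]
  exact core_mem hx hy he he' (hσ 0) (hσ 1)

theorem no_sub (hx1 : x ≠ 1) (hy1 : y ≠ 1) : x * y⁻¹ ∉ CC x y := by
  have hxy : x ≠ y := by
    intro h
    have h3 := x3 hx
    rw [h, hy] at h3
    exact hy1 h3.symm
  rintro (h | h | h | h)
  · rw [mul_inv_eq_one] at h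
    exact hxy h
  · rw [mul_eq_left, inv_eq_one] at h
    exact hy1 h
  · rw [mul_inv_eq_iff_eq_mul, ← pow_two, y2 hy] at h
    have h3 := xi hx
    rw [h, inv_inv] at h3
    apply hxy
    rw [h]; exact h3.symm
  · rw [Set.mem_singleton_iff, mul_eq_right] at h
    exact hx1 h

end

end Pool.Agent.H91.SchNo
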