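import Pool.Agent.H91.SchWord

/-! The stabiliser of a set closed under two families of operations is normal. -/

set_option autoImplicit false
set_option linter.unusedSimpArgs false
set_option linter.unusedSectionVars false

namespace Pool.Agent.H91.SchNorm

open Pool.Agent.H91.SchWord

variable {G : Type} [Group G] (C : Set G)

/-- the two sided stabiliser of `C` -/
def stab (hinv : ∀ c ∈ C, c⁻¹ ∈ C) : Subgroup G where
  carrier := {h | ∀ c ∈ C, h * c ∈ C ∧ c * h ∈ C}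
  one_mem' := fun c hc => by simp [hc]
  mul_mem' := by
    intro a b ha hb c hc
    refine ⟨?_, ?_⟩
    · rw [mul_assoc]; exact (ha _ (hb c hc).1).1
    · rw [← mul_assoc]; exact (hb _ (ha c hc).2).2
  inv_mem' := by
    intro a ha c hc
    refine ⟨?_, ?_⟩
    · have := hinv _ (ha _ (hinv c hc)).2
      simpa using this
    · have := hinv _ (ha _ (hinv c hc)).1
      simpa using this

variable (h1 : (1 : G) ∈ C) (hinv : ∀ c ∈ C, c⁻¹ ∈ C) (hpow : ∀ c ∈ C, ∀ n : ℕ, c ^ n ∈ C)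
  (hM1 : ∀ c ∈ C, ∀ d ∈ C, (c ^ 3 * d ^ 3) ^ 2 ∈ stab C hinv)
  (hM2 : ∀ c ∈ C, ∀ d ∈ C, cm (c ^ 2) (d ^ 2) ∈ stab C hinv)

include h1

theorem stab_sub {h : G} (hh : h ∈ stab C hinv) : h ∈ C := by
  have := (hh 1 h1).1
  simpa using this

include hpow hM1 hM2

theorem cube {c h : G} (hc : c ∈ C) (hh : h ∈ stab C hinv) : c ^ 3 * h * c ^ 3 ∈ stab C hinv := by
  set H := stab C hinv with hH
  obtain ⟨X, hX⟩ : ∃ X, X = c ^ 3 := ⟨_, rfl⟩
  rw [← hX]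
  have hXC : X ∈ C := hX ▸ hpow c hc 3
  have hX2 : X ^ 2 ∈ H := by
    have := hM1 c hc 1 h1
    rw [one_pow, mul_one, ← hX] at this
    exact this
  have hX4 : X ^ 4 ∈ H := by
    have := H.mul_mem hX2 hX2
    rwa [← pow_add] at this
  obtain ⟨t, ht⟩ : ∃ t, t = X * h * X := ⟨_, rfl⟩
  rw [← ht]
  have hhX : h * X ∈ C := (hh X hXC).1
  -- (i)
  have i1 : ∀ g ∈ H, t * g ^ 2 * t⁻¹ ∈ H := by
    intro g hg
    have h2 := hM2 _ hhX g (stab_sub C h1 hinv hg)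
    have h3 := H.mul_mem (H.mul_mem (H.inv_mem hh) (H.mul_mem h2 (H.pow_mem hg 2))) hh
    have h4 : h⁻¹ * (cm ((h * X) ^ 2) (g ^ 2) * g ^ 2) * h = t * g ^ 2 * t⁻¹ := by
      rw [ht, cm]; simp only [pow_succ, pow_zero, one_mul, mul_inv_rev, inv_inv, mul_assoc, inv_mul_cancel_left, mul_inv_cancel_left,
      mul_inv_cancel, inv_mul_cancel, mul_one]
    rwa [h4] at h3
  -- (ii)
  have i2 : t * (h * X ^ 4 * h) * t ∈ H := by
    have h2 := hM1 _ hhX X hXC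
    have h3 := H.mul_mem (H.mul_mem (H.inv_mem hh) h2) (H.inv_mem (H.mul_mem hh hX4))
    have h4 : h⁻¹ * ((h * X) ^ 3 * X ^ 3) ^ 2 * (h * X ^ 4)⁻¹ = t * (h * X ^ 4 * h) * t := by
      rw [ht]; simp only [pow_succ, pow_zero, one_mul, mul_inv_rev, inv_inv, mul_assoc, inv_mul_cancel_left, mul_inv_cancel_left,
      mul_inv_cancel, inv_mul_cancel, mul_one]
    rwa [h4] at h3
  -- (iii)
  have i3 : t * (h * X ^ 4 * h) * t⁻¹ ∈ H := by
    have h2 := H.mul_mem (i1 _ (H.mul_mem (H.mul_mem hh hX2) (H.inv_mem hh))) (i1 _ hh)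
    have h4 : t * (h * X ^ 2 * h⁻¹) ^ 2 * t⁻¹ * (t * h ^ 2 * t⁻¹) = t * (h * X ^ 4 * h) * t⁻¹ := by
      simp only [pow_succ, pow_zero, one_mul, mul_inv_rev, inv_inv, mul_assoc, inv_mul_cancel_left, mul_inv_cancel_left,
      mul_inv_cancel, inv_mul_cancel, mul_one]
    rwa [h4] at h2
  have i4 : t ^ 2 ∈ H := by
    have h2 := H.mul_mem (H.inv_mem i3) i2
    have h4 : (t * (h * X ^ 4 * h) * t⁻¹)⁻¹ * (t * (h * X ^ 4 * h) * t) = t ^ 2 := by simp only [pow_succ, pow_zero, one_mul, mul_inv_rev, inv_inv, mul_assoc, inv_mul_cancel_left, mul_inv_cancel_left,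
      mul_inv_cancel, inv_mul_cancel, mul_one]
    rwa [h4] at h2
  -- (iv)
  have i5 : t ^ 3 ∈ H := by
    have hg : h * X ^ 2 ∈ H := H.mul_mem hh hX2
    have h2 := hM1 _ (stab_sub C h1 hinv hg) c hc
    rw [← hX] at h2
    have h3 := H.mul_mem (H.mul_mem (H.inv_mem (H.pow_mem hg 3)) h2) (H.inv_mem hX2)
    have h4 : ((h * X ^ 2) ^ 3)⁻¹ * ((h * X ^ 2) ^ 3 * X) ^ 2 * (X ^ 2)⁻¹ = t ^ 3 := by
      rw [ht]; simp only [pow_succ, pow_zero, one_mul, mul_inv_rev, inv_inv, mul_assoc, inv_mul_cancel_left, mul_inv_cancel_left,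
      mul_inv_cancel, inv_mul_cancel, mul_one]
    rwa [h4] at h3
  have h2 := H.mul_mem i5 (H.inv_mem i4)
  have h4 : t ^ 3 * (t ^ 2)⁻¹ = t := by simp only [pow_succ, pow_zero, one_mul, mul_inv_rev, inv_inv, mul_assoc, inv_mul_cancel_left, mul_inv_cancel_left,
      mul_inv_cancel, inv_mul_cancel, mul_one]
  rwa [h4] at h2

theorem six {c : G} (hc : c ∈ C) : (c ^ 3) ^ 2 ∈ stab C hinv := by
  have := hM1 c hc 1 h1
  rwa [one_pow, mul_one] at this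

theorem cube_mem {c : G} (hc : c ∈ C) : c ^ 3 ∈ Subgroup.normalizer (stab C hinv : Set G) := by
  set H := stab C hinv with hH
  have h6 := six C h1 hinv hpow hM1 hM2 hc
  rw [Subgroup.mem_normalizer_iff]
  intro h
  constructor
  · intro hh
    have h2 := H.mul_mem (cube C h1 hinv hpow hM1 hM2 hc hh) (H.inv_mem h6)
    have h4 : c ^ 3 * h * c ^ 3 * ((c ^ 3) ^ 2)⁻¹ = c ^ 3 * h * (c ^ 3)⁻¹ := by simp only [pow_succ, pow_zero, one_mul, mul_inv_rev, inv_inv, mul_assoc, inv_mul_cancel_left, mul_inv_cancel_left,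
      mul_inv_cancel, inv_mul_cancel, mul_one]
    rwa [h4] at h2
  · intro hh
    have h2 := H.mul_mem (H.inv_mem h6) (cube C h1 hinv hpow hM1 hM2 hc hh)
    have h4 : ((c ^ 3) ^ 2)⁻¹ * (c ^ 3 * (c ^ 3 * h * (c ^ 3)⁻¹) * c ^ 3) = h := by simp only [pow_succ, pow_zero, one_mul, mul_inv_rev, inv_inv, mul_assoc, inv_mul_cancel_left, mul_inv_cancel_left,
      mul_inv_cancel, inv_mul_cancel, mul_one]
    rwa [h4] at h2

theorem sq {c h : G} (hc : c ∈ C) (hh : h ∈ stab C hinv) : c ^ 2 * h * (c ^ 2)⁻¹ ∈ stab C hinv := by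
  set H := stab C hinv with hH
  set N := Subgroup.normalizer (H : Set G) with hN
  have hHN : H ≤ N := Subgroup.le_normalizer
  obtain ⟨Y, hY⟩ : ∃ Y, Y = c ^ 2 := ⟨_, rfl⟩
  rw [← hY]
  have hYC : Y ∈ C := hY ▸ hpow c hc 2
  have hY3 : Y ^ 3 ∈ H := by
    have := six C h1 hinv hpow hM1 hM2 hc
    have h4 : (c ^ 3) ^ 2 = Y ^ 3 := by rw [hY]; simp only [pow_succ, pow_zero, one_mul, mul_inv_rev, inv_inv, mul_assoc, inv_mul_cancel_left, mul_inv_cancel_left,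
      mul_inv_cancel, inv_mul_cancel, mul_one]
    rwa [h4] at this
  obtain ⟨b, hb⟩ : ∃ b, b = Y * h * Y⁻¹ := ⟨_, rfl⟩
  obtain ⟨b2, hb2⟩ : ∃ b2, b2 = Y ^ 2 * h * (Y ^ 2)⁻¹ := ⟨_, rfl⟩
  rw [← hb]
  have hhY : h * Y ∈ C := (hh Y hYC).1
  have hn : b * b2 ∈ N := by
    have h2 := cube_mem C h1 hinv hpow hM1 hM2 hhY
    have h3 := N.mul_mem (N.mul_mem (N.inv_mem (hHN hh)) h2) (N.inv_mem (hHN hY3))
    have h4 : h⁻¹ * (h * Y) ^ 3 * (Y ^ 3)⁻¹ = b * b2 := by rw [hb, hb2]; simp only [pow_succ, pow_zero, one_mul, mul_inv_rev, inv_inv, mul_assoc, inv_mul_cancel_left, mul_inv_cancel_left,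
      mul_inv_cancel, inv_mul_cancel, mul_one]
    rwa [h4] at h3
  have hk : (b * b2)⁻¹ * (Y ^ 3)⁻¹ * b2 ∈ H := by
    have h2 := hM2 _ (hinv _ hhY) _ (hinv _ hYC)
    have h3 : Y ^ 3 * h * (Y ^ 3)⁻¹ ∈ H := H.mul_mem (H.mul_mem hY3 hh) (H.inv_mem hY3)
    have h5 := H.mul_mem (H.mul_mem (H.mul_mem hY3 h2) (H.inv_mem (H.pow_mem hY3 2))) (H.inv_mem h3)
    have h4 : Y ^ 3 * cm ((h * Y)⁻¹ ^ 2) (Y⁻¹ ^ 2) * ((Y ^ 3) ^ 2)⁻¹ * (Y ^ 3 * h * (Y ^ 3)⁻¹)⁻¹ =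
        (b * b2)⁻¹ * (Y ^ 3)⁻¹ * b2 := by
      rw [hb, hb2, cm]; simp only [pow_succ, pow_zero, one_mul, mul_inv_rev, inv_inv, mul_assoc, inv_mul_cancel_left, mul_inv_cancel_left,
      mul_inv_cancel, inv_mul_cancel, mul_one]
    rwa [h4] at h5
  have hb2N : b2 ∈ N := by
    have h3 := N.mul_mem (N.mul_mem (hHN hY3) hn) (hHN hk)
    have h4 : Y ^ 3 * (b * b2) * ((b * b2)⁻¹ * (Y ^ 3)⁻¹ * b2) = b2 := by simp only [pow_succ, pow_zero, one_mul, mul_inv_rev, inv_inv, mul_assoc, inv_mul_cancel_left, mul_inv_cancel_left,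
      mul_inv_cancel, inv_mul_cancel, mul_one]
    rwa [h4] at h3
  have h5 := (Subgroup.mem_normalizer_iff.mp hb2N _).mp hk
  have h6 := H.inv_mem (H.mul_mem h5 hY3)
  have h4 : (b2 * ((b * b2)⁻¹ * (Y ^ 3)⁻¹ * b2) * b2⁻¹ * Y ^ 3)⁻¹ = b := by simp only [pow_succ, pow_zero, one_mul, mul_inv_rev, inv_inv, mul_assoc, inv_mul_cancel_left, mul_inv_cancel_left,
      mul_inv_cancel, inv_mul_cancel, mul_one]
  rwa [h4] at h6

theorem sq_mem {c : G} (hc : c ∈ C) : c ^ 2 ∈ Subgroup.normalizer (stab C hinv : Set G) := by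
  set H := stab C hinv with hH
  have hY3 : (c ^ 2) ^ 3 ∈ H := by
    have := six C h1 hinv hpow hM1 hM2 hc
    have h4 : (c ^ 3) ^ 2 = (c ^ 2) ^ 3 := by simp only [pow_succ, pow_zero, one_mul, mul_inv_rev, inv_inv, mul_assoc, inv_mul_cancel_left, mul_inv_cancel_left,
      mul_inv_cancel, inv_mul_cancel, mul_one]
    rwa [h4] at this
  have hs := fun {h : G} (hh : h ∈ H) => sq C h1 hinv hpow hM1 hM2 hc hh
  rw [Subgroup.mem_normalizer_iff]
  intro h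
  constructor
  · exact fun hh => hs hh
  · intro hh
    have h2 := H.mul_mem (H.mul_mem (H.inv_mem hY3) (hs (hs hh))) hY3
    have h4 : ((c ^ 2) ^ 3)⁻¹ * (c ^ 2 * (c ^ 2 * (c ^ 2 * h * (c ^ 2)⁻¹) * (c ^ 2)⁻¹) * (c ^ 2)⁻¹) *
        (c ^ 2) ^ 3 = h := by simp only [pow_succ, pow_zero, one_mul, mul_inv_rev, inv_inv, mul_assoc, inv_mul_cancel_left, mul_inv_cancel_left,
      mul_inv_cancel, inv_mul_cancel, mul_one]
    rwa [h4] at h2

theorem mem_norm {c : G} (hc : c ∈ C) : c ∈ Subgroup.normalizer (stab C hinv : Set G) := by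
  have h2 := Subgroup.mul_mem _ (cube_mem C h1 hinv hpow hM1 hM2 hc)
    (Subgroup.inv_mem _ (sq_mem C h1 hinv hpow hM1 hM2 hc))
  have h4 : c ^ 3 * (c ^ 2)⁻¹ = c := by simp only [pow_succ, pow_zero, one_mul, mul_inv_rev, inv_inv, mul_assoc, inv_mul_cancel_left, mul_inv_cancel_left,
      mul_inv_cancel, inv_mul_cancel, mul_one]
  rwa [h4] at h2

theorem norm {c h : G} (hc : c ∈ Subgroup.normalizer (stab C hinv : Set G))
    (hh : h ∈ stab C hinv) : c * h * c⁻¹ ∈ stab C hinv :=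
  (Subgroup.mem_normalizer_iff.mp hc h).mp hh

end Pool.Agent.H91.SchNorm
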