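import Pool.Agent.H91.SchModel

/-! Choice of the two involutions. -/

set_option autoImplicit false

namespace Pool.Agent.H91.SchPar

open Pool.Agent.H91.SchEng Pool.Agent.H91.SchWord Pool.Agent.H91.SchVia Pool.Agent.H91.SchModel Equiv

variable {S : Type}

/-- index swap -/
def sw1 (r : Fin 8) : Fin 8 := ![1, 0, 3, 2, 5, 4, 7, 6] r

/-- index swap -/
def sw2 (r : Fin 8) : Fin 8 := ![7, 2, 1, 4, 3, 6, 5, 0] r

theorem sw1_sw1 : ∀ r, sw1 (sw1 r) = r := by decide

theorem sw2_sw2 : ∀ r, sw2 (sw2 r) = r := by decide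

theorem sw2_ne : ∀ r : Fin 8, r ≠ 0 → r ≠ 7 → sw2 r ≠ 0 ∧ sw2 r ≠ 7 := by decide

/-- first involution -/
def Ap : Perm (ℕ × Fin 8 × S) where
  toFun a := (a.1, sw1 a.2.1, a.2.2)
  invFun a := (a.1, sw1 a.2.1, a.2.2)
  left_inv a := by simp [sw1_sw1]
  right_inv a := by simp [sw1_sw1]

/-- second involution -/
def bF (p : ℕ → Perm S) (a : ℕ × Fin 8 × S) : ℕ × Fin 8 × S :=
  if a.2.1 = 7 then (a.1, 0, p a.1 a.2.2)
  else if a.2.1 = 0 then (a.1, 7, (p a.1)⁻¹ a.2.2)
  else (a.1, sw2 a.2.1, a.2.2)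

theorem bF_bF (p : ℕ → Perm S) (a : ℕ × Fin 8 × S) : bF p (bF p a) = a := by
  obtain ⟨j, r, s⟩ := a
  by_cases h7 : r = 7
  · subst h7
    simp [bF]
  · by_cases h0 : r = 0
    · subst h0
      simp [bF]
    · have := sw2_ne r h0 h7
      simp [bF, h7, h0, this.1, this.2, sw2_sw2]

/-- second involution -/
def Bp (p : ℕ → Perm S) : Perm (ℕ × Fin 8 × S) where
  toFun := bF p
  invFun := bF p
  left_inv := bF_bF p
  right_inv := bF_bF p

/-- the product of the two involutions -/
def BA (p : ℕ → Perm S) : Perm (ℕ × Fin 8 × S) := Bp p * Ap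

theorem BA_four (p : ℕ → Perm S) (j : ℕ) (s : S) : (BA p ^ 4) (j, 0, s) = (j, 0, p j s) := by
  have h0 : BA p (j, 0, s) = (j, 2, s) := by
    rw [BA, Perm.mul_apply]; rfl
  have h2 : BA p (j, 2, s) = (j, 4, s) := by
    rw [BA, Perm.mul_apply]; rfl
  have h4 : BA p (j, 4, s) = (j, 6, s) := by
    rw [BA, Perm.mul_apply]; rfl
  have h6 : BA p (j, 6, s) = (j, 0, p j s) := by
    rw [BA, Perm.mul_apply]; rfl
  rw [show (4 : ℕ) = 3 + 1 from rfl, pow_succ, Perm.mul_apply, h0, show (3 : ℕ) = 2 + 1 from rfl,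
    pow_succ, Perm.mul_apply, h2, show (2 : ℕ) = 1 + 1 from rfl, pow_succ, Perm.mul_apply, h4,
    pow_one, h6]

variable (e : Bool × S ≃ S)

/-- the cells -/
def εA : (ℕ × Fin 8 × S) ↪ S where
  toFun a := cell e (8 * a.1 + a.2.1.val) a.2.2
  inj' := by
    rintro ⟨i, r, s⟩ ⟨j, q, t⟩ h
    have h1 := @cell_inj S e (8 * i + r.val, s) (8 * j + q.val, t) h
    simp only [Prod.mk.injEq] at h1
    obtain ⟨h1, rfl⟩ := h1
    have hr := r.2
    have hq := q.2
    have h2 : i = j := by omega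
    have h3 : r.val = q.val := by omega
    rw [h2, Fin.ext h3]

theorem intEquivNat_zero : Equiv.intEquivNat 0 = 0 := rfl

/-- the cells indexed by the integers -/
def εZ : (ℤ × S) ↪ S where
  toFun a := cell e (Equiv.intEquivNat a.1) a.2
  inj' := by
    rintro ⟨i, s⟩ ⟨j, t⟩ h
    have h1 := @cell_inj S e (Equiv.intEquivNat i, s) (Equiv.intEquivNat j, t) h
    simp only [Prod.mk.injEq, EmbeddingLike.apply_eq_iff_eq] at h1
    rw [h1.1, h1.2]

theorem εZ_zero (s : S) : εZ e (0, s) = cell e 0 s := rfl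

/-- the first cell -/
def ε0 : S ↪ S where
  toFun s := cell e 0 s
  inj' := by
    intro s t h
    have h1 := @cell_inj S e (0, s) (0, t) h
    simp only [Prod.mk.injEq, true_and] at h1
    exact h1

theorem via_half (k : Perm S) : IsVia (fun s : S => cell e 0 s) k
    (via (εZ e) (half k) * via (εZ e) (shift S) * (via (εZ e) (half k))⁻¹ *
      (via (εZ e) (shift S))⁻¹) := by
  rw [← map_inv, ← map_inv, ← map_mul, ← map_mul, ← map_mul]
  exact (half_shift k).comp (via_isVia (εZ e) _)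

theorem exists_par (κ : ℕ → Perm S) : ∃ (ia ib : Perm S) (ha : ∀ s, ia (ia s) = s)
    (hb : ∀ s, ib (ib s) = s), ∀ j, 1 ≤ j →
    IsVia (fun s : S => ((13 : Fin 36), cell e 0 (cell e 0 (cell e 0 s)))) (κ j)
      (wW j (X e ia ib ha hb) Yp) := by
  classical
  let p : ℕ → Perm S := fun j => if j = 0 then via (εZ e) (shift S) else
    via (ε0 e) (via (εZ e) (half (κ j)))
  refine ⟨via (εA e) Ap, via (εA e) (Bp p), ?_, ?_, ?_⟩
  · intro s
    have h : (Ap : Perm (ℕ × Fin 8 × S)) * Ap = 1 := by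
      ext1 a
      exact Ap.left_inv a
    rw [← Perm.mul_apply, ← map_mul, h, map_one]
    rfl
  · intro s
    have h : Bp p * Bp p = 1 := by
      ext1 a
      exact (Bp p).left_inv a
    rw [← Perm.mul_apply, ← map_mul, h, map_one]
    rfl
  · intro j hj
    have hp : ∀ i s, ((via (εA e) (Bp p) * via (εA e) Ap) ^ 4) (cell e (8 * i) s) =
        cell e (8 * i) (p i s) := by
      intro i s
      have h0 : (via (εA e) (Bp p) * via (εA e) Ap) ^ 4 = via (εA e) (BA p ^ 4) := by
        rw [← map_mul, ← map_pow]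
        rfl
      rw [h0]
      have h1 := (via_isVia (εA e) (BA p ^ 4)).1 (i, 0, s)
      rw [BA_four] at h1
      exact h1
    have h1 := wW_via e (via (εA e) Ap) (via (εA e) (Bp p)) (by
      intro s
      have h : (Ap : Perm (ℕ × Fin 8 × S)) * Ap = 1 := by
        ext1 a
        exact Ap.left_inv a
      rw [← Perm.mul_apply, ← map_mul, h, map_one]
      rfl) (by
      intro s
      have h : Bp p * Bp p = 1 := by
        ext1 a
        exact (Bp p).left_inv a
      rw [← Perm.mul_apply, ← map_mul, h, map_one]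
      rfl) hp j
    have hj0 : j ≠ 0 := by omega
    have hpj : p j = via (ε0 e) (via (εZ e) (half (κ j))) := by simp [p, hj0]
    have hp0 : ∀ s, ((via (εA e) (Bp p) * via (εA e) Ap) ^ 4) (cell e 0 s) =
        cell e 0 (via (εZ e) (shift S) s) := by
      intro s
      have := hp 0 s
      simpa [p] using this
    have h2 := (via_isVia (ε0 e) (via (εZ e) (half (κ j)))).comm' _ hp0
    rw [← hpj] at h2
    have h3 := (via_half e (κ j)).comp h2
    exact h3.comp h1

end Pool.Agent.H91.SchPar
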