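import Pool.Agent.H91.SchFin
import Pool.Agent.H91.SchNorm

/-! The two directions of the reduction. -/

set_option autoImplicit false

namespace Pool.Agent.H91.SchRed

open Pool.Agent.H91.SchWord Pool.Agent.H91.SchNorm

section
variable {G : Type} [Group G]

/-- value of a word in two letters -/
def e2 (c d : G) : FreeGroup (Fin 2) →* G := FreeGroup.lift ![c, d]

theorem e2_one (μ : FreeGroup (Fin 2)) : e2 (1 : G) 1 μ = 1 := by
  have : e2 (1 : G) 1 = 1 := by
    apply FreeGroup.ext_hom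
    intro i
    fin_cases i <;> simp [e2]
  rw [this]; rfl

theorem map_e2 {K : Type} [Group K] (f : G →* K) (c d : G) (μ : FreeGroup (Fin 2)) :
    f (e2 c d μ) = e2 (f c) (f d) μ := by
  have : f.comp (e2 c d) = e2 (f c) (f d) := by
    apply FreeGroup.ext_hom
    intro i
    fin_cases i <;> simp [e2]
  exact DFunLike.congr_fun this μ

/-- product of the left modules -/
def LPv (σ : ℕ → G) : ℕ → List (FreeGroup (Fin 2)) → G
  | _, [] => 1
  | k, μ :: ms => e2 (σ (4 + 4 * k)) (σ (5 + 4 * k)) μ * LPv σ (k + 1) ms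

/-- product of the right modules -/
def RPv (σ : ℕ → G) : ℕ → List (FreeGroup (Fin 2)) → G
  | _, [] => 1
  | k, μ :: ms => e2 (σ (6 + 4 * k))⁻¹ (σ (7 + 4 * k))⁻¹ μ * RPv σ (k + 1) ms

theorem map_LPv {K : Type} [Group K] (f : G →* K) (σ : ℕ → G) (ms : List (FreeGroup (Fin 2))) :
    ∀ k, f (LPv σ k ms) = LPv (fun i => f (σ i)) k ms := by
  induction ms with
  | nil => intro k; simp [LPv]
  | cons μ ms ih => intro k; simp [LPv, ih, map_e2]

theorem map_RPv {K : Type} [Group K] (f : G →* K) (σ : ℕ → G) (ms : List (FreeGroup (Fin 2))) :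
    ∀ k, f (RPv σ k ms) = RPv (fun i => f (σ i)) k ms := by
  induction ms with
  | nil => intro k; simp [RPv]
  | cons μ ms ih => intro k; simp [RPv, ih, map_e2]

theorem LPv_congr {σ τ : ℕ → G} (ms : List (FreeGroup (Fin 2))) :
    ∀ k, (∀ i, 4 + 4 * k ≤ i → σ i = τ i) → LPv σ k ms = LPv τ k ms := by
  induction ms with
  | nil => intro k _; rfl
  | cons μ ms ih =>
    intro k h
    rw [LPv, LPv, h _ (by omega), h _ (by omega), ih (k + 1) (fun i hi => h i (by omega))]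

theorem RPv_congr {σ τ : ℕ → G} (ms : List (FreeGroup (Fin 2))) :
    ∀ k, (∀ i, 4 + 4 * k ≤ i → σ i = τ i) → RPv σ k ms = RPv τ k ms := by
  induction ms with
  | nil => intro k _; rfl
  | cons μ ms ih =>
    intro k h
    rw [RPv, RPv, h _ (by omega), h _ (by omega), ih (k + 1) (fun i hi => h i (by omega))]

theorem LPv_one (ms : List (FreeGroup (Fin 2))) : ∀ k, LPv (fun _ => (1 : G)) k ms = 1 := by
  induction ms with
  | nil => intro k; rfl
  | cons μ ms ih => intro k; rw [LPv, ih, e2_one, mul_one]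

theorem RPv_one (ms : List (FreeGroup (Fin 2))) : ∀ k, RPv (fun _ => (1 : G)) k ms = 1 := by
  induction ms with
  | nil => intro k; rfl
  | cons μ ms ih => intro k; rw [RPv, ih, inv_one, e2_one, mul_one]

theorem exL (C : Set G) (h1 : (1 : G) ∈ C) {z z' : G} (hz : z ∈ C) (hz' : z' ∈ C)
    {μ : FreeGroup (Fin 2)} (ms : List (FreeGroup (Fin 2))) (hμ : μ ∈ ms) :
    ∀ k, ∃ σ : ℕ → G, (∀ i, σ i ∈ C) ∧ (∀ i, i < 4 + 4 * k → σ i = 1) ∧
      LPv σ k ms = e2 z z' μ ∧ RPv σ k ms = 1 := by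
  induction ms with
  | nil => simp at hμ
  | cons μ0 ms ih =>
    intro k
    rcases List.mem_cons.mp hμ with rfl | h
    · refine ⟨fun i => if i = 4 + 4 * k then z else if i = 5 + 4 * k then z' else 1, ?_, ?_, ?_, ?_⟩
      · intro i
        simp only
        split_ifs <;> assumption
      · intro i hi
        simp only
        rw [if_neg (by omega), if_neg (by omega)]
      · rw [LPv, LPv_congr (τ := fun _ => 1) ms (k + 1) (fun i hi => by
          rw [if_neg (by omega), if_neg (by omega)]), LPv_one, mul_one]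
        rw [if_pos rfl, if_neg (by omega), if_pos rfl]
      · rw [RPv, RPv_congr (τ := fun _ => 1) ms (k + 1) (fun i hi => by
          rw [if_neg (by omega), if_neg (by omega)]), RPv_one, mul_one]
        rw [if_neg (by omega), if_neg (by omega), if_neg (by omega), if_neg (by omega), inv_one, e2_one]
    · obtain ⟨σ, s1, s2, s3, s4⟩ := ih h (k + 1)
      refine ⟨σ, s1, fun i hi => s2 i (by omega), ?_, ?_⟩
      · rw [LPv, s3, s2 _ (by omega), s2 _ (by omega), e2_one, one_mul]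
      · rw [RPv, s4, s2 _ (by omega), s2 _ (by omega), inv_one, e2_one, one_mul]

theorem exR (C : Set G) (h1 : (1 : G) ∈ C) {z z' : G} (hz : z ∈ C) (hz' : z' ∈ C)
    {μ : FreeGroup (Fin 2)} (ms : List (FreeGroup (Fin 2))) (hμ : μ ∈ ms) :
    ∀ k, ∃ σ : ℕ → G, (∀ i, σ i ∈ C) ∧ (∀ i, i < 4 + 4 * k → σ i = 1) ∧
      RPv σ k ms = e2 z⁻¹ z'⁻¹ μ ∧ LPv σ k ms = 1 := by
  induction ms with
  | nil => simp at hμ
  | cons μ0 ms ih =>
    intro k
    rcases List.mem_cons.mp hμ with rfl | h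
    · refine ⟨fun i => if i = 6 + 4 * k then z else if i = 7 + 4 * k then z' else 1, ?_, ?_, ?_, ?_⟩
      · intro i
        simp only
        split_ifs <;> assumption
      · intro i hi
        simp only
        rw [if_neg (by omega), if_neg (by omega)]
      · rw [RPv, RPv_congr (τ := fun _ => 1) ms (k + 1) (fun i hi => by
          rw [if_neg (by omega), if_neg (by omega)]), RPv_one, mul_one]
        rw [if_pos rfl, if_neg (by omega), if_pos rfl]
      · rw [LPv, LPv_congr (τ := fun _ => 1) ms (k + 1) (fun i hi => by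
          rw [if_neg (by omega), if_neg (by omega)]), LPv_one, mul_one]
        rw [if_neg (by omega), if_neg (by omega), if_neg (by omega), if_neg (by omega), e2_one]
    · obtain ⟨σ, s1, s2, s3, s4⟩ := ih h (k + 1)
      refine ⟨σ, s1, fun i hi => s2 i (by omega), ?_, ?_⟩
      · rw [RPv, s3, s2 _ (by omega), s2 _ (by omega), inv_one, e2_one, one_mul]
      · rw [LPv, s4, s2 _ (by omega), s2 _ (by omega), e2_one, one_mul]

theorem const_comm {A : Type} [CommGroup A] (a : A) (ms : List (FreeGroup (Fin 2))) :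
    ∀ k, LPv (fun _ => a) k ms * RPv (fun _ => a) k ms = 1 := by
  have h : ∀ μ, e2 a⁻¹ a⁻¹ μ = (e2 a a μ)⁻¹ := by
    intro μ
    have : e2 a⁻¹ a⁻¹ = (e2 a a)⁻¹ := by
      apply FreeGroup.ext_hom
      intro i
      fin_cases i <;> simp [e2]
    rw [this]; rfl
  induction ms with
  | nil => intro k; simp [LPv, RPv]
  | cons μ ms ih =>
    intro k
    rw [LPv, RPv, h, mul_mul_mul_comm, ih, mul_inv_cancel, one_mul]

theorem const_one (c : G) (ms : List (FreeGroup (Fin 2))) :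
    LPv (fun _ => c) 0 ms * RPv (fun _ => c) 0 ms = 1 := by
  let f : Multiplicative ℤ →* G := zpowersHom G c
  have hf : f (Multiplicative.ofAdd 1) = c := by simp [f]
  have h := congrArg f (const_comm (Multiplicative.ofAdd (1 : ℤ)) ms 0)
  rw [map_mul, map_LPv, map_RPv, map_one f, hf] at h
  exact h

end

/-- the modules -/
noncomputable def mods (m : ℕ) (R : Finset (FreeGroup (Fin m))) : List (FreeGroup (Fin 2)) :=
  (FreeGroup.of 0 ^ 3 * FreeGroup.of 1 ^ 3) ^ 2 ::
  cm (FreeGroup.of 0 ^ 2) (FreeGroup.of 1 ^ 2) ::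
  R.toList.map fun r => uW (FreeGroup.of 0 ^ 3) ((FreeGroup.of 1)⁻¹ ^ 2) r

section
variable {G : Type} [Group G]

/-- the value of the word -/
noncomputable def val (m : ℕ) (R : Finset (FreeGroup (Fin m))) (u : FreeGroup (Fin m)) (σ : ℕ → G) : G :=
  LPv σ 0 (mods m R) *
    coreW m (σ 0) (σ 1) (uW (σ 0 ^ 3) ((σ 1)⁻¹ ^ 2) u) (uW (σ 1 ^ 3) ((σ 0)⁻¹ ^ 2) u) *
    RPv σ 0 (mods m R)

theorem e2_0 (c d : G) : e2 c d (FreeGroup.of 0) = c := by simp [e2]

theorem e2_1 (c d : G) : e2 c d (FreeGroup.of 1) = d := by simp [e2]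

/-- the positive case -/
theorem yes {m : ℕ} (R : Finset (FreeGroup (Fin m))) (u : FreeGroup (Fin m)) (C : Set G)
    (hne : C.Nonempty) (hB : ∀ σ : ℕ → G, (∀ i, σ i ∈ C) → val m R u σ ∈ C)
    (hu : u ∈ Subgroup.normalClosure (R : Set (FreeGroup (Fin m)))) :
    ∀ c ∈ C, ∀ d ∈ C, c * d⁻¹ ∈ C := by
  have h1 : (1 : G) ∈ C := by
    obtain ⟨c, hc⟩ := hne
    have h := hB (fun _ => c) (fun _ => hc)
    rw [val, coreW_comm (Commute.refl c), mul_inv_cancel, mul_one, const_one] at h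
    exact h
  -- general use of `hB`
  have use : ∀ (τ : ℕ → G), (∀ i, τ i ∈ C) → ∀ c ∈ C, ∀ d ∈ C,
      LPv τ 0 (mods m R) * coreW m c d (uW (c ^ 3) (d⁻¹ ^ 2) u) (uW (d ^ 3) (c⁻¹ ^ 2) u) *
        RPv τ 0 (mods m R) ∈ C := by
    intro τ hτ c hc d hd
    let σ : ℕ → G := fun i => if i = 0 then c else if i = 1 then d else τ i
    have h := hB σ (by
      intro i
      simp only [σ]
      split_ifs
      · exact hc
      · exact hd
      · exact hτ i)
    have e1 : LPv σ 0 (mods m R) = LPv τ 0 (mods m R) := LPv_congr _ _ (fun i hi => by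
      simp only [σ]; rw [if_neg (by omega), if_neg (by omega)])
    have e3 : RPv σ 0 (mods m R) = RPv τ 0 (mods m R) := RPv_congr _ _ (fun i hi => by
      simp only [σ]; rw [if_neg (by omega), if_neg (by omega)])
    rw [val, e1, e3] at h
    exact h
  have hcore : ∀ c ∈ C, ∀ d ∈ C,
      coreW m c d (uW (c ^ 3) (d⁻¹ ^ 2) u) (uW (d ^ 3) (c⁻¹ ^ 2) u) ∈ C := by
    intro c hc d hd
    have h := use (fun _ => 1) (fun _ => h1) c hc d hd
    rwa [LPv_one, RPv_one, one_mul, mul_one] at h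
  have hcomm : ∀ c ∈ C, ∀ d ∈ C, Commute c d → c * d⁻¹ ∈ C := by
    intro c hc d hd h
    have h2 := hcore c hc d hd
    rwa [coreW_comm h] at h2
  have hinv : ∀ c ∈ C, c⁻¹ ∈ C := by
    intro c hc
    have := hcomm 1 h1 c hc (Commute.one_left c)
    rwa [one_mul] at this
  have hpow : ∀ c ∈ C, ∀ n : ℕ, c ^ n ∈ C := by
    intro c hc n
    induction n with
    | zero => rw [pow_zero]; exact h1
    | succ n ih =>
      have := hcomm _ ih _ (hinv c hc) ((Commute.refl c).pow_left n).inv_right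
      rwa [inv_inv, ← pow_succ] at this
  have hmod : ∀ μ ∈ mods m R, ∀ z ∈ C, ∀ z' ∈ C, e2 z z' μ ∈ stab C hinv := by
    intro μ hμ z hz z' hz' c hc
    refine ⟨?_, ?_⟩
    · obtain ⟨τ, t1, -, t3, t4⟩ := exL C h1 hz hz' _ hμ 0
      have h := use τ t1 c hc 1 h1
      rwa [t3, t4, coreW_comm (Commute.one_right c), inv_one, mul_one, mul_one] at h
    · obtain ⟨τ, t1, -, t3, t4⟩ := exR C h1 (hinv z hz) (hinv z' hz') _ hμ 0
      have h := use τ t1 c hc 1 h1
      rwa [t3, t4, coreW_comm (Commute.one_right c), inv_one, mul_one, one_mul, inv_inv,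
        inv_inv] at h
  have hM1 : ∀ c ∈ C, ∀ d ∈ C, (c ^ 3 * d ^ 3) ^ 2 ∈ stab C hinv := by
    intro c hc d hd
    have h := hmod (by simp [mods]) c hc d hd
      (μ := (FreeGroup.of 0 ^ 3 * FreeGroup.of 1 ^ 3) ^ 2)
    simpa only [map_pow, map_mul, e2_0, e2_1] using h
  have hM2 : ∀ c ∈ C, ∀ d ∈ C, cm (c ^ 2) (d ^ 2) ∈ stab C hinv := by
    intro c hc d hd
    have h := hmod (by simp [mods]) c hc d hd
      (μ := cm (FreeGroup.of 0 ^ 2) (FreeGroup.of 1 ^ 2))
    simpa only [map_cm, map_pow, map_mul, e2_0, e2_1] using h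
  have hN : ∀ c ∈ C, c ∈ Subgroup.normalizer (stab C hinv : Set G) := fun c hc =>
    mem_norm C h1 hinv hpow hM1 hM2 hc
  have hnorm : ∀ g ∈ Subgroup.normalizer (stab C hinv : Set G), ∀ h ∈ stab C hinv,
      g * h * g⁻¹ ∈ stab C hinv := fun g hg h hh =>
    norm C h1 hinv hpow hM1 hM2 hg hh
  have hU : ∀ c ∈ C, ∀ d ∈ C, uW (c ^ 3) (d⁻¹ ^ 2) u ∈ stab C hinv := by
    intro c hc d hd
    have hx := hN _ (hpow c hc 3)
    have hy := hN _ (hpow _ (hinv d hd) 2)
    let K : Subgroup (FreeGroup (Fin m)) := (stab C hinv).comap (uW (c ^ 3) (d⁻¹ ^ 2))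
    have hK : K.Normal := by
      refine ⟨fun r hr g => ?_⟩
      show uW (c ^ 3) (d⁻¹ ^ 2) (g * r * g⁻¹) ∈ stab C hinv
      rw [map_mul, map_mul, map_inv]
      exact hnorm _ (uW_mem _ hx hy g) _ hr
    have hRK : (R : Set (FreeGroup (Fin m))) ⊆ K := by
      intro r hr
      show uW (c ^ 3) (d⁻¹ ^ 2) r ∈ stab C hinv
      have h := hmod (by
        simp only [mods, List.mem_cons, List.mem_map, Finset.mem_toList]
        exact Or.inr (Or.inr ⟨r, hr, rfl⟩)) c hc d hd
        (μ := uW (FreeGroup.of 0 ^ 3) ((FreeGroup.of 1)⁻¹ ^ 2) r)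
      rw [map_uW, map_pow, map_pow, map_inv, e2_0, e2_1] at h
      exact h
    exact Subgroup.normalClosure_le_normal hRK hu
  intro c hc d hd
  have hE1 : eW m (c ^ 3) (d⁻¹ ^ 2) (uW (c ^ 3) (d⁻¹ ^ 2) u) ∈ stab C hinv :=
    eW_mem _ _ hnorm (hN _ (hpow c hc 3)) (hN _ (hpow _ (hinv d hd) 2)) m (hU c hc d hd)
  have hE2 : eW m (d ^ 3) (c⁻¹ ^ 2) (uW (d ^ 3) (c⁻¹ ^ 2) u) ∈ stab C hinv :=
    eW_mem _ _ hnorm (hN _ (hpow d hd 3)) (hN _ (hpow _ (hinv c hc) 2)) m (hU d hd c hc)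
  have hE3 := hnorm _ (Subgroup.inv_mem _ (hN _ (hpow d hd 3))) _ (Subgroup.inv_mem _ hE2)
  rw [inv_inv] at hE3
  have h := hcore c hc d hd
  rw [coreW, mul_assoc] at h
  have h5 := Subgroup.inv_mem _ (Subgroup.mul_mem _ hE1 hE3)
  have h6 := (h5 _ h).2
  rwa [mul_inv_cancel_right] at h6

end

end Pool.Agent.H91.SchRed
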