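import Pool.Agent.H91.SchEng

/-! The group words of the reduction. -/

set_option autoImplicit false

namespace Pool.Agent.H91.SchWord

open Pool.Agent.H91.SchEng

def d0L : List L := [L.Y, L.x, L.y, L.x, L.Y, L.x, L.Y, L.x, L.y, L.x, L.Y, L.x, L.Y, L.x, L.Y,
  L.x, L.y]
def d1L : List L := [L.y, L.x, L.Y, L.x, L.y, L.x, L.Y, L.x, L.Y, L.x, L.Y, L.x, L.y]
def hL0 : List L := [L.Y, L.x, L.y, L.x, L.y, L.x, L.y, L.x, L.Y, L.x, L.Y, L.x, L.y, L.x, L.Y,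
  L.x, L.Y, L.x, L.y, L.x, L.Y, L.x, L.y, L.x, L.y, L.x, L.y, L.x, L.Y, L.x, L.y, L.x, L.y,
  L.x, L.Y, L.x, L.Y]
def hL1 : List L := [L.Y, L.x, L.y, L.x, L.y, L.x, L.y, L.x, L.Y, L.x, L.y, L.x, L.Y, L.x, L.y,
  L.x, L.y, L.x, L.Y, L.x, L.y, L.x, L.y, L.x, L.y, L.x, L.Y, L.x, L.y, L.x, L.y, L.x, L.y,
  L.x, L.Y, L.x, L.Y, L.x, L.y, L.x, L.y, L.x, L.y, L.x, L.y, L.x, L.y, L.x, L.Y, L.x, L.Y,
  L.x]
def hL2 : List L := [L.Y, L.x, L.y, L.x, L.y, L.x, L.y, L.x, L.Y, L.x, L.y, L.x, L.Y, L.x, L.y,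
  L.x, L.y, L.x, L.Y, L.x, L.y, L.x, L.y, L.x, L.Y, L.x, L.y, L.x, L.Y, L.x, L.Y, L.x, L.Y,
  L.x, L.Y, L.x, L.y, L.x, L.y, L.x, L.Y, L.x, L.Y, L.x, L.y, L.x, L.y, L.x, L.Y, L.x, L.y,
  L.x, L.y, L.x, L.y, L.x, L.Y, L.x, L.y, L.x, L.Y]
def hL3 : List L := [L.Y, L.x, L.y, L.x, L.y, L.x, L.y, L.x, L.Y, L.x, L.Y, L.x, L.y, L.x, L.Y,
  L.x, L.Y, L.x, L.y, L.x, L.Y, L.x, L.y, L.x, L.y, L.x, L.y, L.x, L.y, L.x, L.y, L.x, L.Y,
  L.x, L.y, L.x, L.y, L.x, L.y, L.x, L.y, L.x, L.Y, L.x, L.Y, L.x, L.y, L.x, L.Y, L.x, L.Y]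
def hL4 : List L := [L.Y, L.x, L.y, L.x, L.y, L.x, L.y, L.x, L.Y, L.x, L.y, L.x, L.Y, L.x, L.y,
  L.x, L.y, L.x, L.Y, L.x, L.y, L.x, L.y, L.x, L.y, L.x, L.y, L.x, L.y, L.x, L.Y, L.x, L.y,
  L.x, L.y, L.x, L.y, L.x, L.y, L.x, L.y, L.x, L.Y, L.x, L.y]
def hL5 : List L := [L.Y, L.x, L.y, L.x, L.y, L.x, L.y, L.x, L.Y, L.x, L.Y, L.x, L.y, L.x, L.Y,
  L.x, L.Y, L.x, L.y, L.x, L.Y, L.x, L.Y, L.x, L.Y, L.x, L.Y, L.x, L.Y, L.x, L.Y, L.x, L.Y,
  L.x, L.y, L.x, L.Y, L.x, L.Y, L.x, L.Y, L.x, L.Y, L.x, L.Y, L.x, L.Y, L.x, L.y, L.x]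
def hL6 : List L := [L.Y, L.x, L.y, L.x, L.y, L.x, L.y, L.x, L.Y, L.x, L.Y, L.x, L.Y, L.x, L.Y]
def hL7 : List L := [L.Y, L.x, L.y, L.x, L.y, L.x, L.y, L.x, L.Y, L.x, L.Y, L.x, L.y, L.x, L.Y,
  L.x, L.Y, L.x, L.y, L.x, L.y, L.x, L.Y, L.x, L.y, L.x, L.Y, L.x, L.y, L.x, L.y, L.x, L.Y,
  L.x, L.Y, L.x, L.Y, L.x, L.Y]
def hL8 : List L := [L.Y, L.x, L.y, L.x, L.y, L.x, L.y, L.x, L.Y, L.x, L.y, L.x, L.Y, L.x, L.y,
  L.x, L.y, L.x, L.Y, L.x, L.y, L.x, L.Y, L.x, L.Y, L.x, L.Y, L.x, L.Y, L.x, L.Y, L.x, L.y,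
  L.x, L.Y, L.x, L.Y, L.x, L.Y, L.x, L.y, L.x, L.Y, L.x, L.Y, L.x, L.Y, L.x, L.Y, L.x, L.y]
def hL9 : List L := [L.Y, L.x, L.y, L.x, L.y, L.x, L.y, L.x, L.Y, L.x, L.Y, L.x, L.y, L.x, L.Y,
  L.x, L.Y, L.x, L.y, L.x, L.Y, L.x, L.Y, L.x, L.Y, L.x, L.Y, L.x, L.y, L.x, L.y, L.x, L.Y,
  L.x, L.y, L.x, L.y, L.x, L.y, L.x, L.y, L.x, L.y, L.x, L.Y, L.x, L.y, L.x, L.Y, L.x, L.y,
  L.x, L.y]
def hL10 : List L := [L.Y, L.x, L.y, L.x, L.y, L.x, L.y, L.x, L.Y, L.x, L.Y, L.x, L.y, L.x,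
  L.Y, L.x, L.Y, L.x, L.y, L.x, L.Y, L.x, L.Y, L.x, L.Y, L.x, L.Y, L.x, L.y, L.x, L.y, L.x,
  L.y, L.x, L.y, L.x, L.y, L.x, L.Y, L.x, L.Y, L.x, L.Y, L.x, L.y, L.x, L.y, L.x, L.Y, L.x,
  L.y, L.x, L.Y, L.x, L.y]
def hL11 : List L := [L.Y, L.x, L.y, L.x, L.y, L.x, L.y, L.x, L.Y, L.x, L.y, L.x, L.Y, L.x,
  L.y, L.x, L.y, L.x, L.Y, L.x, L.y, L.x, L.y, L.x, L.y, L.x, L.y, L.x, L.Y, L.x, L.Y, L.x,
  L.Y, L.x, L.Y, L.x, L.Y, L.x, L.y, L.x, L.y, L.x, L.y, L.x, L.Y, L.x, L.Y, L.x, L.y]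

/-- the words which move the block `13` to the triangles -/
def hL (t : Fin 12) : List L :=
  [hL0, hL1, hL2, hL3, hL4, hL5, hL6, hL7, hL8, hL9, hL10, hL11].getD t.val []

theorem d0_ok : run d0L (13, []) = some (13, [Sy.O]) := by decide +kernel

theorem d1_ok : run d1L (13, []) = some (13, [Sy.I]) := by decide +kernel

theorem h0_ok : ∀ t : Fin 12, run (hL t) (13, [Sy.O]) = some (⟨3 * t.val, by omega⟩, []) := by
  decide +kernel

theorem h1_ok : ∀ t : Fin 12, run (hL t) (13, [Sy.I]) = some (⟨3 * t.val + 1, by omega⟩, []) := by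
  decide +kernel

theorem p_ok : run pL (13, []) =
    some (13, [Sy.b, Sy.a, Sy.b, Sy.a, Sy.b, Sy.a, Sy.b, Sy.a]) := by decide +kernel

section
variable {G : Type} [Group G]

/-- the value of a word; the first letter is applied first -/
def ev : List L → G → G → G
  | [], _, _ => 1
  | L.x :: w, x, y => ev w x y * x
  | L.y :: w, x, y => ev w x y * y
  | L.Y :: w, x, y => ev w x y * y⁻¹

/-- commutator -/
def cm (a b : G) : G := a * b * a⁻¹ * b⁻¹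

def aW (x y : G) : G := ev alL x y
def gW (x y : G) : G := ev gL x y
def pW (x y : G) : G := cm (aW x y) (gW x y * aW x y * (gW x y)⁻¹)
def d0W (x y : G) : G := ev d0L x y
def d1W (x y : G) : G := ev d1L x y
def hW (t : Fin 12) (x y : G) : G := ev (hL t) x y

/-- the parameters -/
def wW (j : ℕ) (x y : G) : G :=
  cm ((d1W x y ^ (8 * j))⁻¹ * pW x y * d1W x y ^ (8 * j)) (d0W x y * pW x y * (d0W x y)⁻¹)

/-- the words for the free group of rank `m` -/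
def uW {m : ℕ} (x y : G) : FreeGroup (Fin m) →* G := FreeGroup.lift fun i => wW (i.val + 1) x y

def psiW (m : ℕ) (x y u : G) : G :=
  (d0W x y ^ 5)⁻¹ * cm (cm (wW (m + 2) x y) u) (wW (m + 1) x y) * d0W x y ^ 5

def sigW (m : ℕ) (x y u : G) : G :=
  ((List.finRange 12).map fun t => hW t x y * psiW m x y u * (hW t x y)⁻¹).prod

def eW (m : ℕ) (x y u : G) : G := sigW m x y u * (y * sigW m x y u * y⁻¹)

def coreW (m : ℕ) (c d u1 u2 : G) : G :=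
  c * d⁻¹ * eW m (c ^ 3) (d⁻¹ ^ 2) u1 * ((d ^ 3)⁻¹ * (eW m (d ^ 3) (c⁻¹ ^ 2) u2)⁻¹ * d ^ 3)

section
variable {K : Type} [Group K] (f : G →* K)

theorem map_ev (w : List L) (x y : G) : f (ev w x y) = ev w (f x) (f y) := by
  induction w with
  | nil => simp [ev]
  | cons c w ih => cases c <;> simp [ev, ih]

theorem map_cm (a b : G) : f (cm a b) = cm (f a) (f b) := by simp [cm]

theorem map_pW (x y : G) : f (pW x y) = pW (f x) (f y) := by
  simp only [pW, aW, gW, map_cm, map_mul, map_inv, map_ev]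

theorem map_wW (j : ℕ) (x y : G) : f (wW j x y) = wW j (f x) (f y) := by
  simp only [wW, d0W, d1W, map_cm, map_mul, map_inv, map_ev, map_pow, map_pW]

theorem map_uW {m : ℕ} (x y : G) (r : FreeGroup (Fin m)) : f (uW x y r) = uW (f x) (f y) r := by
  have : f.comp (uW x y) = uW (m := m) (f x) (f y) := by
    apply FreeGroup.ext_hom
    intro i
    simp [uW, map_wW]
  exact DFunLike.congr_fun this r

theorem map_eW (m : ℕ) (x y u : G) : f (eW m x y u) = eW m (f x) (f y) (f u) := by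
  have hs : f (sigW m x y u) = sigW m (f x) (f y) (f u) := by
    simp only [sigW, map_list_prod, List.map_map]
    congr 1
    apply List.map_congr_left
    intro t _
    simp only [Function.comp, psiW, d0W, hW, map_cm, map_mul, map_inv, map_ev, map_pow, map_wW]
  simp only [eW, map_mul, map_inv, hs]

theorem map_coreW (m : ℕ) (c d u1 u2 : G) :
    f (coreW m c d u1 u2) = coreW m (f c) (f d) (f u1) (f u2) := by
  simp only [coreW, map_mul, map_inv, map_pow, map_eW]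

end

/-! commuting arguments -/

theorem ev_comm {x y : G} (z : G) (hx : Commute x z) (hy : Commute y z) (w : List L) :
    Commute (ev w x y) z := by
  induction w with
  | nil => exact Commute.one_left z
  | cons c w ih =>
    cases c
    · exact ih.mul_left hx
    · exact ih.mul_left hy
    · exact ih.mul_left hy.inv_left

theorem pW_comm {x y : G} (h : Commute x y) : pW x y = 1 := by
  have h1 : ∀ w, Commute x (ev w x y) := fun w => (ev_comm x (Commute.refl x) h.symm w).symm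
  have h2 : ∀ w, Commute y (ev w x y) := fun w => (ev_comm y h (Commute.refl y) w).symm
  have h3 : Commute (gW x y) (aW x y) := ev_comm _ (h1 _) (h2 _) _
  have h4 : gW x y * aW x y * (gW x y)⁻¹ = aW x y := by
    rw [h3.eq]; group
  rw [pW, h4, cm]
  group

theorem wW_comm {x y : G} (h : Commute x y) (j : ℕ) : wW j x y = 1 := by
  simp [wW, pW_comm h, cm]

theorem uW_comm {m : ℕ} {x y : G} (h : Commute x y) (r : FreeGroup (Fin m)) : uW x y r = 1 := by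
  have : uW (m := m) x y = 1 := by
    apply FreeGroup.ext_hom
    intro i
    simp [uW, wW_comm h]
  rw [this]
  rfl

theorem eW_comm {x y : G} (h : Commute x y) (m : ℕ) (u : G) : eW m x y u = 1 := by
  have h1 : psiW m x y u = 1 := by simp [psiW, wW_comm h, cm]
  have h2 : sigW m x y u = 1 := by simp [sigW, h1]
  simp [eW, h2]

theorem coreW_comm {c d : G} (h : Commute c d) (m : ℕ) (u1 u2 : G) :
    coreW m c d u1 u2 = c * d⁻¹ := by
  have h1 : Commute (c ^ 3) (d⁻¹ ^ 2) := (h.inv_right.pow_pow 3 2)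
  have h2 : Commute (d ^ 3) (c⁻¹ ^ 2) := (h.symm.inv_right.pow_pow 3 2)
  rw [coreW, eW_comm h1, eW_comm h2]
  group

/-! normalising subgroups -/

section
variable (N H : Subgroup G) (hN : ∀ g ∈ N, ∀ h ∈ H, g * h * g⁻¹ ∈ H) {x y : G} (hx : x ∈ N)
  (hy : y ∈ N)

include hx hy

theorem ev_mem (w : List L) : ev w x y ∈ N := by
  induction w with
  | nil => exact N.one_mem
  | cons c w ih =>
    cases c
    · exact N.mul_mem ih hx
    · exact N.mul_mem ih hy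
    · exact N.mul_mem ih (N.inv_mem hy)

theorem cm_mem {a b : G} (ha : a ∈ N) (hb : b ∈ N) : cm a b ∈ N :=
  N.mul_mem (N.mul_mem (N.mul_mem ha hb) (N.inv_mem ha)) (N.inv_mem hb)

theorem wW_mem (j : ℕ) : wW j x y ∈ N := by
  have e := ev_mem N hx hy
  have hp : pW x y ∈ N := by
    apply cm_mem N hx hy (e _)
    exact N.mul_mem (N.mul_mem (e _) (e _)) (N.inv_mem (e _))
  apply cm_mem N hx hy
  · exact N.mul_mem (N.mul_mem (N.inv_mem (N.pow_mem (e _) _)) hp) (N.pow_mem (e _) _)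
  · exact N.mul_mem (N.mul_mem (e _) hp) (N.inv_mem (e _))

theorem uW_mem {m : ℕ} (r : FreeGroup (Fin m)) : uW x y r ∈ N := by
  have h : (uW (m := m) x y).range ≤ N := by
    rw [uW, FreeGroup.range_lift_eq_closure, Subgroup.closure_le]
    rintro _ ⟨i, rfl⟩
    exact wW_mem N hx hy _
  exact h ⟨r, rfl⟩

include hN

theorem conj_mem' {g h : G} (hg : g ∈ N) (hh : h ∈ H) : g⁻¹ * h * g ∈ H := by
  have := hN g⁻¹ (N.inv_mem hg) h hh
  rwa [inv_inv] at this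

theorem cm_left {a b : G} (ha : a ∈ N) (hb : b ∈ H) : cm a b ∈ H :=
  H.mul_mem (hN a ha b hb) (H.inv_mem hb)

theorem cm_right {a b : G} (ha : a ∈ H) (hb : b ∈ N) : cm a b ∈ H := by
  have h : cm a b = a * (b * a⁻¹ * b⁻¹) := by rw [cm]; group
  rw [h]
  exact H.mul_mem ha (hN b hb _ (H.inv_mem ha))

theorem eW_mem (m : ℕ) {u : G} (hu : u ∈ H) : eW m x y u ∈ H := by
  have e := ev_mem N hx hy
  have h1 : psiW m x y u ∈ H := by
    have h2 : cm (cm (wW (m + 2) x y) u) (wW (m + 1) x y) ∈ H :=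
      cm_right N H hN hx hy (cm_left N H hN hx hy (wW_mem N hx hy _) hu) (wW_mem N hx hy _)
    exact conj_mem' N H hN hx hy (N.pow_mem (e _) 5) h2
  have h2 : sigW m x y u ∈ H := by
    apply Subgroup.list_prod_mem
    intro z hz
    simp only [List.mem_map] at hz
    obtain ⟨t, -, rfl⟩ := hz
    exact hN _ (e _) _ h1
  exact H.mul_mem h2 (hN _ hy _ h2)

end

end

end Pool.Agent.H91.SchWord
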